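import Pool.Agent.H.MP_602efc_co.Katona

/-!
# Katona's shadow bound for `t`-intersecting families, and the second shadow for `t = 3`
-/

namespace CodimThree

open Finset UV CodimTwo
open scoped FinsetFamily

variable {M : ℕ}

/-- Double counting: if every set of the shadow has at most `m` supersets in `V`. -/
lemma Kat3_count (s m : ℕ) (V : Finset (Finset (Fin M))) (hk : ∀ v ∈ V, #v = s)
    (hm : ∀ w ∈ ∂ V, #(V.filter (fun v => w ⊆ v)) ≤ m) : s * #V ≤ m * #(∂ V) := by
  have key : #V * s ≤ #(∂ V) * m := by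
    refine card_mul_le_card_mul (fun (v : Finset (Fin M)) (w : Finset (Fin M)) => w ⊆ v) ?_ ?_
    · intro v hv
      rw [← hk v hv]
      have hinj : #(v.image (fun a => v.erase a)) = #v := by
        apply card_image_of_injOn
        intro a ha b hb hab
        simp only at hab
        by_contra hne
        have : b ∈ v.erase a := mem_erase.mpr ⟨fun h => hne h.symm, hb⟩
        rw [hab] at this
        exact (notMem_erase b v) this
      rw [← hinj]
      apply card_le_card
      intro w hw
      obtain ⟨a, ha, rfl⟩ := mem_image.mp hw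
      rw [mem_bipartiteAbove]
      exact ⟨erase_mem_shadow hv ha, erase_subset _ _⟩
    · intro w hw
      exact hm w hw
  rw [mul_comm, mul_comm m]
  exact key

/-- The local bound in a small ground set. -/
lemma Kat3_local (N t k : ℕ) (ht : 1 ≤ t) (V : Finset (Finset (Fin M))) (hk : ∀ v ∈ V, #v = k + t)
    (hN : ∀ v ∈ V, ∀ a ∈ v, (a : ℕ) < N) (hNk : N ≤ 2 * k + t) :
    (k + t) * #V ≤ (k + 1) * #(∂ V) := by
  apply Kat3_count _ _ V hk
  intro w hw
  obtain ⟨v0, hv0, a0, ha0, hw0⟩ := mem_shadow_iff.mp hw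
  have hwk : #w = k + t - 1 := by
    rw [← hw0, card_erase_of_mem ha0, hk v0 hv0]
  have hwN : ∀ a ∈ w, (a : ℕ) < N := by
    intro a ha
    rw [← hw0] at ha
    exact hN v0 hv0 a (mem_of_mem_erase ha)
  have hsub : V.filter (fun v => w ⊆ v)
      ⊆ (univ.filter (fun a : Fin M => (a : ℕ) < N ∧ a ∉ w)).image (fun a => insert a w) := by
    intro v hv
    rw [mem_filter] at hv
    obtain ⟨hvV, hwv⟩ := hv
    have hc : #(v \ w) = 1 := by
      rw [card_sdiff_of_subset hwv, hk v hvV, hwk]; omega
    obtain ⟨a, ha⟩ := card_eq_one.mp hc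
    have hav : a ∈ v \ w := by rw [ha]; exact mem_singleton_self a
    rw [mem_sdiff] at hav
    refine mem_image.mpr ⟨a, ?_, ?_⟩
    · simp only [mem_filter, mem_univ, true_and]
      exact ⟨hN v hvV a hav.1, hav.2⟩
    · rw [← sdiff_union_of_subset hwv, ha, singleton_union]
  refine (card_le_card hsub).trans (card_image_le.trans ?_)
  have h1 : #(univ.filter (fun a : Fin M => (a : ℕ) < N ∧ a ∉ w)) + #w
      ≤ #(univ.filter (fun a : Fin M => (a : ℕ) < N)) := by
    rw [← card_union_of_disjoint]
    · apply card_le_card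
      intro a ha
      rw [mem_union] at ha
      simp only [mem_filter, mem_univ, true_and] at ha ⊢
      rcases ha with ha | ha
      · exact ha.1
      · exact hwN a ha
    · rw [disjoint_left]
      intro a ha
      simp only [mem_filter, mem_univ, true_and] at ha
      exact ha.2
  have h2 : #(univ.filter (fun a : Fin M => (a : ℕ) < N)) ≤ N := by
    have : #((univ.filter (fun a : Fin M => (a : ℕ) < N)).image (fun a : Fin M => (a : ℕ)))
        = #(univ.filter (fun a : Fin M => (a : ℕ) < N)) :=
      card_image_of_injective _ Fin.val_injective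
    rw [← this]
    calc _ ≤ #(range N) := by
          apply card_le_card
          intro x hx
          obtain ⟨a, ha, rfl⟩ := mem_image.mp hx
          simp only [mem_filter, mem_univ, true_and] at ha
          exact mem_range.mpr ha
      _ = N := card_range N
  omega

/-- The case `k = 0`: at most one set. -/
lemma Kat3_zero (t : ℕ) (V : Finset (Finset (Fin M))) (hk : ∀ v ∈ V, #v = 0 + t)
    (h2 : ∀ v ∈ V, ∀ w ∈ V, t ≤ #(v ∩ w)) : (0 + t) * #V ≤ (0 + 1) * #(∂ V) := by
  apply Kat3_count _ _ V hk
  intro w _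
  have h1 : #V ≤ 1 := by
    rw [card_le_one]
    intro a ha b hb
    have hab := h2 a ha b hb
    have e1 : a ∩ b = a := eq_of_subset_of_card_le inter_subset_left (by rw [hk a ha]; omega)
    have e2 : a ∩ b = b := eq_of_subset_of_card_le inter_subset_right (by rw [hk b hb]; omega)
    exact e1.symm.trans e2
  exact (card_le_card (filter_subset _ _)).trans h1

theorem Kat3_shifted (t : ℕ) (ht : 1 ≤ t) : ∀ (N k : ℕ) (V : Finset (Finset (Fin M))),
    (∀ v ∈ V, #v = k + t) →
    (∀ v ∈ V, ∀ w ∈ V, t ≤ #(v ∩ w)) → (∀ v ∈ V, ∀ a ∈ v, (a : ℕ) < N) → Shifted V →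
    (k + t) * #V ≤ (k + 1) * #(∂ V) := by
  intro N
  induction N with
  | zero =>
    intro k V hk _ hN _
    exact Kat3_local 0 t k ht V hk hN (by omega)
  | succ N ih =>
    intro k V hk h2 hN hS
    rcases Nat.lt_or_ge (2 * k + t) (N + 1) with hlt | hge
    swap
    · exact Kat3_local (N + 1) t k ht V hk hN hge
    rcases Nat.lt_or_ge N M with hNM | hNM
    swap
    · refine ih k V hk h2 ?_ hS
      intro v hv a ha
      exact lt_of_lt_of_le a.2 hNM
    -- the case `k = 0`
    rcases Nat.eq_zero_or_pos k with hk0 | hkpos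
    · subst hk0
      exact Kat3_zero t V hk h2
    obtain ⟨k', rfl⟩ : ∃ k', k = k' + 1 := ⟨k - 1, by omega⟩
    set e : Fin M := ⟨N, hNM⟩ with he
    have heN : (e : ℕ) = N := rfl
    set V0 := V.nonMemberSubfamily e with hV0
    set V1 := V.memberSubfamily e with hV1
    have m0 : ∀ v, v ∈ V0 ↔ v ∈ V ∧ e ∉ v := fun v => by rw [hV0, mem_nonMemberSubfamily]
    have m1 : ∀ v, v ∈ V1 ↔ insert e v ∈ V ∧ e ∉ v := fun v => by rw [hV1, mem_memberSubfamily]
    have lt_e : ∀ a : Fin M, (a : ℕ) < N + 1 → a ≠ e → (a : ℕ) < N := by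
      intro a ha hne
      have : (a : ℕ) ≠ N := fun h => hne (Fin.ext (by rw [h]))
      omega
    -- V0
    have i0 : (k' + 1 + t) * #V0 ≤ (k' + 1 + 1) * #(∂ V0) := by
      refine ih (k' + 1) V0 ?_ ?_ ?_ ?_
      · intro v hv; exact hk v ((m0 v).mp hv).1
      · intro v hv w hw; exact h2 v ((m0 v).mp hv).1 w ((m0 w).mp hw).1
      · intro v hv a ha
        exact lt_e a (hN v ((m0 v).mp hv).1 a ha) (fun h => ((m0 v).mp hv).2 (h ▸ ha))
      · intro v hv i j hij hi hj
        rw [m0] at hv ⊢
        refine ⟨hS v hv.1 i j hij hi hj, ?_⟩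
        rw [mem_insert, mem_erase]
        rintro (h | ⟨_, h⟩)
        · have h5 := hN v hv.1 j hj
          have h6 : (i : ℕ) < j := hij
          rw [← h, heN] at h6
          omega
        · exact hv.2 h
    -- V1
    have i1 : (k' + t) * #V1 ≤ (k' + 1) * #(∂ V1) := by
      refine ih k' V1 ?_ ?_ ?_ ?_
      · intro v hv
        have h3 := hk _ ((m1 v).mp hv).1
        rw [card_insert_of_notMem ((m1 v).mp hv).2] at h3
        omega
      · intro v hv w hw
        by_contra hlt2
        push Not at hlt2
        have hv' := (m1 v).mp hv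
        have hw' := (m1 w).mp hw
        have h3 := h2 _ hv'.1 _ hw'.1
        rw [← insert_inter_distrib, card_insert_of_notMem (by simp [hv'.2])] at h3
        have hcv := hk _ hv'.1
        rw [card_insert_of_notMem hv'.2] at hcv
        have hcw := hk _ hw'.1
        rw [card_insert_of_notMem hw'.2] at hcw
        have hun := card_union_add_card_inter v w
        obtain ⟨i, hiN, hi⟩ := exists_small N hNM (v ∪ w) (by omega)
        rw [mem_union, not_or] at hi
        have hie : i ≠ e := fun h => by rw [h, heN] at hiN; omega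
        have hiw : i ∉ insert e w := by
          rw [mem_insert, not_or]; exact ⟨hie, hi.2⟩
        have h4 := hS _ hw'.1 i e (by rw [Fin.lt_def, heN]; exact hiN) hiw (mem_insert_self _ _)
        rw [erase_insert hw'.2] at h4
        have h5 := h2 _ hv'.1 _ h4
        have h6 : insert e v ∩ insert i w = v ∩ w := by
          ext x
          simp only [mem_inter, mem_insert]
          constructor
          · rintro ⟨h | h, h' | h'⟩
            · exact absurd (h'.symm.trans h) hie
            · exact absurd (h ▸ h') hw'.2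
            · exact absurd (h' ▸ h) hi.1
            · exact ⟨h, h'⟩
          · rintro ⟨h, h'⟩; exact ⟨Or.inr h, Or.inr h'⟩
        rw [h6] at h5
        omega
      · intro v hv a ha
        have hv' := (m1 v).mp hv
        exact lt_e a (hN _ hv'.1 a (mem_insert_of_mem ha)) (fun h => hv'.2 (h ▸ ha))
      · intro v hv i j hij hi hj
        rw [m1] at hv ⊢
        have hje : j ≠ e := fun h => hv.2 (h ▸ hj)
        have hjN := lt_e j (hN _ hv.1 j (mem_insert_of_mem hj)) hje
        have hie : i ≠ e := by
          intro h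
          have h6 : (i : ℕ) < j := hij
          rw [h, heN] at h6
          omega
        constructor
        · have h4 := hS _ hv.1 i j hij (by rw [mem_insert, not_or]; exact ⟨hie, hi⟩)
            (mem_insert_of_mem hj)
          rw [erase_insert_of_ne (fun h => hje h.symm)] at h4
          rwa [insert_comm] at h4
        · rw [mem_insert, mem_erase, not_or]
          exact ⟨fun h => hie h.symm, fun h => hv.2 h.2⟩
    -- shadows
    have hshadow : #(∂ V0) + #(∂ V1) ≤ #(∂ V) := by
      have himg : #((∂ V1).image (insert e)) = #(∂ V1) := by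
        apply card_image_of_injOn
        intro w hw w' hw' hww
        have hn : ∀ w ∈ ∂ V1, e ∉ w := by
          intro w hw
          obtain ⟨v, hv, a, ha, rfl⟩ := mem_shadow_iff.mp hw
          intro h
          exact ((m1 v).mp hv).2 (mem_of_mem_erase h)
        have := congrArg (fun s => s.erase e) hww
        simp only [erase_insert (hn w hw), erase_insert (hn w' hw')] at this
        exact this
      rw [← himg, ← card_union_of_disjoint]
      · apply card_le_card
        intro w hw
        rw [mem_union] at hw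
        rcases hw with hw | hw
        · exact shadow_mono (fun v hv => ((m0 v).mp hv).1) hw
        · obtain ⟨w', hw', rfl⟩ := mem_image.mp hw
          obtain ⟨v, hv, a, ha, rfl⟩ := mem_shadow_iff.mp hw'
          have hv' := (m1 v).mp hv
          have hae : a ≠ e := fun h => hv'.2 (h ▸ ha)
          rw [← erase_insert_of_ne (fun h => hae h.symm)]
          exact erase_mem_shadow hv'.1 (mem_insert_of_mem ha)
      · rw [disjoint_left]
        intro w hw hw'
        obtain ⟨v, hv, a, ha, rfl⟩ := mem_shadow_iff.mp hw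
        obtain ⟨w', _, hw''⟩ := mem_image.mp hw'
        have : e ∈ v.erase a := by rw [← hw'']; exact mem_insert_self _ _
        exact ((m0 v).mp hv).2 (mem_of_mem_erase this)
    have hcard : #V1 + #V0 = #V := card_memberSubfamily_add_card_nonMemberSubfamily e V
    have i1' : (k' + 1 + t) * #V1 ≤ (k' + 1 + 1) * #(∂ V1) := by
      have h3 : #V1 ≤ #(∂ V1) := by
        have : (k' + 1) * #V1 ≤ (k' + 1) * #(∂ V1) :=
          (Nat.mul_le_mul_right _ (by omega)).trans i1
        exact Nat.le_of_mul_le_mul_left this (by omega)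
      have e1 : (k' + 1 + t) * #V1 = (k' + t) * #V1 + #V1 := by ring
      have e2 : (k' + 1 + 1) * #(∂ V1) = (k' + 1) * #(∂ V1) + #(∂ V1) := by ring
      rw [e1, e2]
      exact Nat.add_le_add i1 h3
    calc (k' + 1 + t) * #V = (k' + 1 + t) * #V1 + (k' + 1 + t) * #V0 := by rw [← hcard]; ring
      _ ≤ (k' + 1 + 1) * #(∂ V1) + (k' + 1 + 1) * #(∂ V0) := Nat.add_le_add i1' i0
      _ = (k' + 1 + 1) * (#(∂ V0) + #(∂ V1)) := by ring
      _ ≤ (k' + 1 + 1) * #(∂ V) := Nat.mul_le_mul_left _ hshadow

lemma Kat3_compression_inter (t : ℕ) {i j : Fin M} (hij : i ≠ j) (V : Finset (Finset (Fin M)))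
    (h2 : ∀ v ∈ V, ∀ w ∈ V, t ≤ #(v ∩ w)) :
    ∀ v ∈ 𝓒 {i} {j} V, ∀ w ∈ 𝓒 {i} {j} V, t ≤ #(v ∩ w) := by
  -- one member new, one member old
  have mixed : ∀ v w, (v ∉ V ∧ ∃ b ∈ V, compress {i} {j} b = v) →
      (w ∈ V ∧ compress {i} {j} w ∈ V) → t ≤ #(v ∩ w) := by
    rintro v w ⟨hv, b, hb, hbv⟩ ⟨hw, hw'⟩
    rw [compress_single hij] at hbv
    split_ifs at hbv with hc
    swap
    · exact absurd (hbv ▸ hb) hv
    rw [compress_single hij] at hw'
    split_ifs at hw' with hc'
    · rw [← hbv, ← inter_aux2 hij b w hc.1 hc.2 hc'.1 hc'.2]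
      exact h2 b hb _ hw'
    · rw [← hbv]
      exact (h2 b hb w hw).trans (inter_aux1 hij b w hc.1 hc.2 hc')
  intro v hv w hw
  rw [mem_compression] at hv hw
  rcases hv with hv | hv <;> rcases hw with hw | hw
  · exact h2 v hv.1 w hw.1
  · rw [inter_comm]; exact mixed w v hw hv
  · exact mixed v w hv hw
  · obtain ⟨hv0, b, hb, hbv⟩ := hv
    obtain ⟨hw0, c, hc, hcw⟩ := hw
    rw [compress_single hij] at hbv hcw
    split_ifs at hbv with h1
    swap
    · exact absurd (hbv ▸ hb) hv0
    split_ifs at hcw with h3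
    swap
    · exact absurd (hcw ▸ hc) hw0
    rw [← hbv, ← hcw]
    exact (h2 b hb c hc).trans (inter_aux3 hij b c h1.1 h1.2 h3.1 h3.2)

/-- Katona's shadow bound, one step: `(k + t) #V ≤ (k + 1) #∂V` for `t`-intersecting families of
`(k + t)`-sets. -/
theorem katona_t (t k : ℕ) (ht : 1 ≤ t) (V : Finset (Finset (Fin M))) (hk : ∀ v ∈ V, #v = k + t)
    (h2 : ∀ v ∈ V, ∀ w ∈ V, t ≤ #(v ∩ w)) : (k + t) * #V ≤ (k + 1) * #(∂ V) := by
  obtain ⟨n, hn⟩ : ∃ n, n = wt V := ⟨_, rfl⟩
  induction n using Nat.strong_induction_on generalizing V with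
  | _ n ih =>
    by_cases hS : Shifted V
    · exact Kat3_shifted t ht M k V hk h2 (fun v _ a _ => a.2) hS
    · unfold Shifted at hS
      push Not at hS
      obtain ⟨v, hv, i, j, hij, hi, hj, hnot⟩ := hS
      have hlt := wt_compression_lt hij V
        ⟨v, hv, by rw [compress_single hij.ne, if_pos ⟨hi, hj⟩]; exact hnot⟩
      have h3 := ih (wt (𝓒 {i} {j} V)) (by omega) (𝓒 {i} {j} V)
        (by
          have hs : (V : Set (Finset (Fin M))).Sized (k + t) := fun v hv => hk v hv
          have := hs.uvCompression (u := {i}) (v := {j}) (by simp)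
          intro v hv
          exact this hv)
        (Kat3_compression_inter t hij.ne V h2) rfl
      rw [card_compression] at h3
      refine h3.trans (Nat.mul_le_mul_left _ ?_)
      apply card_shadow_compression_le
      intro x hx
      rw [mem_singleton] at hx
      subst hx
      refine ⟨j, mem_singleton_self j, ?_⟩
      rw [erase_singleton, erase_singleton]
      exact isCompressed_self _ _

/-- The second shadow of a `3`-intersecting family of `(k + 2)`-sets: `katona_t` with `t = 3`
(for `1 ≤ k`; for `k = 0` the family is empty), and then with `t = 1` for the shadow. -/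
theorem katona3 (k : ℕ) (V : Finset (Finset (Fin M))) (hk : ∀ v ∈ V, #v = k + 2)
    (h3 : ∀ v ∈ V, ∀ w ∈ V, 3 ≤ #(v ∩ w)) : (k + 2) * #V ≤ k * #(∂ (∂ V)) := by
  rcases Nat.eq_zero_or_pos k with hk0 | hkpos
  · subst hk0
    have : V = ∅ := by
      rw [eq_empty_iff_forall_notMem]
      intro v hv
      have h4 := h3 v hv v hv
      rw [inter_self, hk v hv] at h4
      omega
    rw [this]; simp
  obtain ⟨l, rfl⟩ : ∃ l, k = l + 1 := ⟨k - 1, by omega⟩
  have a1 := katona_t 3 l (by omega) V (fun v hv => by rw [hk v hv]) h3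
  have a2 := katona_t 1 (l + 1) (by omega) (∂ V)
    (by
      intro w hw
      obtain ⟨v, hv, a, ha, rfl⟩ := mem_shadow_iff.mp hw
      rw [card_erase_of_mem ha, hk v hv]
      omega)
    (by
      intro w hw w' hw'
      obtain ⟨v, hv, a, ha, rfl⟩ := mem_shadow_iff.mp hw
      obtain ⟨v', hv', a', ha', rfl⟩ := mem_shadow_iff.mp hw'
      have h4 := h3 v hv v' hv'
      have h5 : ((v ∩ v').erase a).erase a' ⊆ v.erase a ∩ v'.erase a' := by
        intro x hx
        simp only [mem_erase, mem_inter] at hx ⊢
        exact ⟨⟨hx.2.1, hx.2.2.1⟩, hx.1, hx.2.2.2⟩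
      have h6 := card_le_card h5
      have h7 := pred_card_le_card_erase (s := v ∩ v') (a := a)
      have h8 := pred_card_le_card_erase (s := (v ∩ v').erase a) (a := a')
      omega)
  have a3 : #(∂ V) ≤ #(∂ (∂ V)) := Nat.le_of_mul_le_mul_left a2 (by omega)
  calc (l + 1 + 2) * #V = (l + 3) * #V := by ring
    _ ≤ (l + 1) * #(∂ V) := a1
    _ ≤ (l + 1) * #(∂ (∂ V)) := Nat.mul_le_mul_left _ a3

end CodimThree
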