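import Pool.Agent.H.MP_602efc_co.Final
import Pool.Agent.H.MP_602efc_co.C3.Kat3

/-!
# Down-sets of diameter `2q` on `2q+3` points with the wrong parity are small
-/

namespace CodimThree

open Finset CodimTwo
open scoped FinsetFamily

/-- `(q+1) (s(2q+3,q+1) - 4 s(2q+1,q)) = C(2q+2,q)`. -/
lemma cat_identity3 (q : ℕ) :
    ((q : ℤ) + 1) * ((bs (2 * q + 3) (q + 1) : ℤ) - 4 * bs (2 * q + 1) q)
      = ((2 * q + 2).choose q : ℤ) := by
  have h1 : (bs (2 * q + 3) (q + 2) : ℤ) = 4 ^ (q + 1) := by exact_mod_cast bs_half (q + 1)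
  have h2 : (bs (2 * q + 3) (q + 2) : ℤ) = bs (2 * q + 3) (q + 1) + ((2 * q + 3).choose (q + 1) : ℤ) := by
    exact_mod_cast bs_succ (2 * q + 3) (q + 1)
  have h3 : (bs (2 * q + 1) (q + 1) : ℤ) = 4 ^ q := by exact_mod_cast bs_half q
  have h4 : (bs (2 * q + 1) (q + 1) : ℤ) = bs (2 * q + 1) q + ((2 * q + 1).choose q : ℤ) := by
    exact_mod_cast bs_succ (2 * q + 1) q
  have h5 : ((2 * q + 3).choose (q + 1) : ℤ) = (2 * q + 2).choose q + (2 * q + 2).choose (q + 1) := by
    exact_mod_cast Nat.choose_succ_succ (2 * q + 2) q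
  have h6 : ((2 * q + 2).choose (q + 1) : ℤ) = (2 * q + 1).choose q + (2 * q + 1).choose (q + 1) := by
    exact_mod_cast Nat.choose_succ_succ (2 * q + 1) q
  have h7 : (2 * q + 1).choose (q + 1) = (2 * q + 1).choose q := by
    rw [← Nat.choose_symm_half]
  rw [h7] at h6
  have h8 : ((2 * q + 2).choose (q + 1) : ℤ) * ((q : ℤ) + 1) = ((2 * q + 2).choose q : ℤ) * ((q : ℤ) + 2) := by
    have := Nat.choose_succ_right_eq (2 * q + 2) q
    rw [show 2 * q + 2 - q = q + 2 by omega] at this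
    exact_mod_cast this
  have h9 : (bs (2 * q + 3) (q + 1) : ℤ) = 4 * 4 ^ q - ((2 * q + 2).choose q + (2 * q + 2).choose (q + 1)) := by
    rw [pow_succ] at h1
    linarith
  have h10 : 4 * (bs (2 * q + 1) q : ℤ) = 4 * 4 ^ q - 2 * (2 * q + 2).choose (q + 1) := by linarith
  rw [h9, h10]
  linear_combination h8

/-- The parity inequality. -/
lemma parity_step3 (q j : ℤ) (y z s : ℤ) (hj0 : 0 ≤ j) (hjq : j ≤ q) (hz : 0 ≤ z) (hy : 0 ≤ y)
    (h : (j + 2) * z ≤ j * y) (hs : s = 1 ∨ s = -1) :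
    s * (y + z) ≤ (q + 1) * (y - z) := by
  have h1 : z ≤ y := by
    have : (j + 2) * z ≤ (j + 2) * y := h.trans (by nlinarith)
    exact le_of_mul_le_mul_left this (by omega)
  have h0 : (q + 2) * z ≤ q * y := by nlinarith [mul_le_mul_of_nonneg_left h1 (sub_nonneg.2 hjq)]
  have h2 : y + z ≤ (q + 1) * (y - z) := by linarith
  rcases hs with rfl | rfl
  · linarith
  · have : 0 ≤ y + z := by linarith
    linarith

/-- Layer bound coming from Katona's theorem: with `V` the family of the complements of the members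
of size `2 q + 1 - j` (sets of size `j + 2`, any two meet in three elements), no member of the second
shadow of `V` has size `j` and lies in `X` (`katona3`; compare `layer_ineq` in `Final.lean`). -/
lemma layer_ineq3 (n q j : ℕ) (hn : n = 2 * q + 3) (X : Finset (Finset (Fin n)))
    (hun : ∀ x ∈ X, ∀ y ∈ X, #(x ∪ y) ≤ 2 * q) (hj : j ≤ q) :
    #{x ∈ X | #x = j} ≤ n.choose j ∧
    (j + 2) * #{x ∈ X | #x = 2 * q + 1 - j} ≤ j * (n.choose j - #{x ∈ X | #x = j}) := by
  set V : Finset (Finset (Fin n)) := {x ∈ X | #x = 2 * q + 1 - j}.image (fun x => xᶜ) with hV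
  have hVc : #V = #{x ∈ X | #x = 2 * q + 1 - j} := by
    rw [hV]
    apply card_image_of_injective
    exact compl_injective
  have hVm : ∀ v ∈ V, ∃ x ∈ X, #x = 2 * q + 1 - j ∧ xᶜ = v := by
    intro v hv
    rw [hV, mem_image] at hv
    obtain ⟨x, hx, rfl⟩ := hv
    rw [mem_filter] at hx
    exact ⟨x, hx.1, hx.2, rfl⟩
  have hk : ∀ v ∈ V, #v = j + 2 := by
    intro v hv
    obtain ⟨x, _, hx, rfl⟩ := hVm v hv
    rw [card_compl, Fintype.card_fin, hx]; omega
  have h2 : ∀ v ∈ V, ∀ w ∈ V, 3 ≤ #(v ∩ w) := by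
    intro v hv w hw
    obtain ⟨x, hx, _, rfl⟩ := hVm v hv
    obtain ⟨y, hy, _, rfl⟩ := hVm w hw
    have h3 := hun x hx y hy
    rw [← compl_union, card_compl, Fintype.card_fin]; omega
  have h4 := katona3 j V hk h2
  have h5 : #(∂ (∂ V)) + #{x ∈ X | #x = j} ≤ n.choose j := by
    rw [← card_union_of_disjoint]
    · have : n.choose j = #(powersetCard j (univ : Finset (Fin n))) := by
        rw [card_powersetCard, card_univ, Fintype.card_fin]
      rw [this]
      apply card_le_card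
      intro w hw
      rw [mem_powersetCard]
      refine ⟨subset_univ _, ?_⟩
      rw [mem_union] at hw
      rcases hw with hw | hw
      · obtain ⟨v', hv', b, hb, rfl⟩ := mem_shadow_iff.mp hw
        obtain ⟨v, hv, a, ha, rfl⟩ := mem_shadow_iff.mp hv'
        rw [card_erase_of_mem hb, card_erase_of_mem ha, hk v hv]; rfl
      · exact (mem_filter.mp hw).2
    · rw [disjoint_left]
      intro w hw hw'
      rw [mem_filter] at hw'
      obtain ⟨v', hv', c, hc, rfl⟩ := mem_shadow_iff.mp hw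
      obtain ⟨v, hv, a, ha, rfl⟩ := mem_shadow_iff.mp hv'
      obtain ⟨x, hx, hxc, rfl⟩ := hVm v hv
      have h6 := hun x hx _ hw'.1
      have h7 : Disjoint x ((xᶜ.erase a).erase c) := by
        rw [disjoint_left]
        intro b hb hb'
        exact (mem_compl.mp (mem_of_mem_erase (mem_of_mem_erase hb'))) hb
      rw [card_union_of_disjoint h7, hxc, hw'.2] at h6
      omega
  refine ⟨by omega, ?_⟩
  rw [← hVc]
  refine h4.trans (Nat.mul_le_mul_left _ ?_)
  omega

/-- Same proof as `final_false` in `Final.lean`. With `x_i` the number of members of size `i`,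
`y_j = C(2q+3,j) - x_j`, `z_j = x_(2q+1-j)` one has `#X = s(2q+3,q+1) - ∑ j ≤ q, (y_j - z_j)`, and the
signed sum `∑ x ∈ X, (-1)^(q+#x) = C(2q+2,q) - ∑ j ≤ q, (-1)^(q+j) (y_j + z_j)` is at most
`4 s(2q+1,q) - #X < 0`. -/
theorem final_false3 (n q : ℕ) (hn : n = 2 * q + 3) (X : Finset (Finset (Fin n)))
    (hdown : ∀ x ∈ X, ∀ j ∈ x, x.erase j ∈ X) (hdiam : ∀ x ∈ X, ∀ y ∈ X, hd x y ≤ 2 * q)
    (hbig : 4 * bs (2 * q + 1) q < #X)
    (hpar : #{x ∈ X | #x % 2 = q % 2} ≤ 2 * bs (2 * q + 1) q) : False := by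
  have hun := union_bound hdown hdiam
  have hsize : ∀ x ∈ X, #x ∈ range (2 * q + 2) := by
    intro x hx
    have := hun x hx x hx
    rw [union_self] at this
    rw [mem_range]; omega
  -- layer decomposition
  have hdec : ∀ g : ℕ → ℤ, ∑ x ∈ X, g (#x)
      = ∑ i ∈ range (2 * q + 2), g i * (#{x ∈ X | #x = i} : ℤ) := by
    intro g
    rw [← sum_fiberwise_of_maps_to hsize]
    apply sum_congr rfl
    intro i _
    rw [sum_congr rfl (g := fun _ => g i) (by
      intro x hx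
      rw [(mem_filter.mp hx).2]), sum_const, nsmul_eq_mul, mul_comm]
  obtain ⟨xs, hxs⟩ : ∃ xs : ℕ → ℤ, xs = fun i => (#{x ∈ X | #x = i} : ℤ) := ⟨_, rfl⟩
  have hxs' : ∀ i, (#{x ∈ X | #x = i} : ℤ) = xs i := fun i => by rw [hxs]
  simp only [hxs'] at hdec
  have hcard : (#X : ℤ) = ∑ j ∈ range (q + 1), (xs j + xs (2 * q + 1 - j)) := by
    have := hdec (fun _ => 1)
    simp only [sum_const, nsmul_eq_mul, mul_one, one_mul] at this
    rw [this, sum_reflect_pair]
  have hsgn : ∑ x ∈ X, (-1 : ℤ) ^ (q + #x)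
      = ∑ j ∈ range (q + 1), (-1 : ℤ) ^ (q + j) * (xs j - xs (2 * q + 1 - j)) := by
    rw [hdec (fun i => (-1 : ℤ) ^ (q + i)), sum_reflect_pair]
    apply sum_congr rfl
    intro j hj
    rw [mem_range] at hj
    have h1 : (-1 : ℤ) ^ (q + (2 * q + 1 - j)) = - (-1 : ℤ) ^ (q + j) := by
      have h2 : q + (2 * q + 1 - j) + (q + j) = 2 * (2 * q) + 1 := by omega
      have h3 : (-1 : ℤ) ^ (q + (2 * q + 1 - j)) * (-1 : ℤ) ^ (q + j) = -1 := by
        rw [← pow_add, h2, pow_succ, pow_mul]; simp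
      have h4 : (-1 : ℤ) ^ (q + j) * (-1 : ℤ) ^ (q + j) = 1 := by
        rw [← pow_add, ← two_mul, pow_mul]; simp
      calc (-1 : ℤ) ^ (q + (2 * q + 1 - j))
          = (-1 : ℤ) ^ (q + (2 * q + 1 - j)) * ((-1 : ℤ) ^ (q + j) * (-1 : ℤ) ^ (q + j)) := by
            rw [h4, mul_one]
        _ = ((-1 : ℤ) ^ (q + (2 * q + 1 - j)) * (-1 : ℤ) ^ (q + j)) * (-1 : ℤ) ^ (q + j) := by ring
        _ = _ := by rw [h3]; ring
    rw [h1]; ring
  -- the sign sum is negative
  have hneg : ∑ x ∈ X, (-1 : ℤ) ^ (q + #x) < 0 := by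
    have h1 : ∑ x ∈ X, (-1 : ℤ) ^ (q + #x)
        = (#{x ∈ X | #x % 2 = q % 2} : ℤ) - (#{x ∈ X | ¬ #x % 2 = q % 2} : ℤ) := by
      rw [← sum_filter_add_sum_filter_not X (fun x => #x % 2 = q % 2)]
      rw [sum_congr rfl (g := fun _ => (1 : ℤ)) (by
        intro x hx
        have := (mem_filter.mp hx).2
        exact Even.neg_one_pow (by rw [Nat.even_iff]; omega))]
      rw [sum_congr (s₁ := {x ∈ X | ¬ #x % 2 = q % 2}) rfl (g := fun _ => (-1 : ℤ)) (by
        intro x hx
        have := (mem_filter.mp hx).2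
        exact Odd.neg_one_pow (by rw [Nat.odd_iff]; omega))]
      simp only [sum_const, nsmul_eq_mul, mul_one, mul_neg]
      ring
    have h2 := card_filter_add_card_filter_not (s := X) (fun x => #x % 2 = q % 2)
    rw [h1]
    omega
  -- the inequality for each layer pair
  have hlay : ∀ j ∈ range (q + 1),
      (-1 : ℤ) ^ (q + j) * ((((2 * q + 3).choose j : ℤ) - xs j) + xs (2 * q + 1 - j))
      ≤ ((q : ℤ) + 1) * ((((2 * q + 3).choose j : ℤ) - xs j) - xs (2 * q + 1 - j)) := by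
    intro j hj
    rw [mem_range] at hj
    obtain ⟨h1, h2⟩ := layer_ineq3 n q j hn X hun (by omega)
    have hch : n.choose j = (2 * q + 3).choose j := by rw [hn]
    rw [hch] at h1 h2
    have h3 : ((j : ℤ) + 2) * xs (2 * q + 1 - j) ≤ j * (((2 * q + 3).choose j : ℤ) - xs j) := by
      have : (((2 * q + 3).choose j - #{x ∈ X | #x = j} : ℕ) : ℤ)
          = ((2 * q + 3).choose j : ℤ) - (#{x ∈ X | #x = j} : ℤ) := Nat.cast_sub h1
      rw [← hxs' j, ← hxs' (2 * q + 1 - j), ← this]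
      exact_mod_cast h2
    refine parity_step3 (q : ℤ) (j : ℤ) _ _ _ (by positivity) (by omega) ?_ ?_ h3 ?_
    · rw [← hxs' (2 * q + 1 - j)]; exact Int.natCast_nonneg _
    · have h5 : (#{x ∈ X | #x = j} : ℤ) ≤ ((2 * q + 3).choose j : ℤ) := by exact_mod_cast h1
      rw [hxs' j] at h5
      linarith
    · exact neg_one_pow_eq_or ℤ (q + j)
  have hsum := sum_le_sum hlay
  rw [← mul_sum] at hsum
  have e1 : ∑ j ∈ range (q + 1), ((((2 * q + 3).choose j : ℤ) - xs j) - xs (2 * q + 1 - j))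
      = (bs (2 * q + 3) (q + 1) : ℤ) - #X := by
    rw [hcard]
    unfold bs
    push_cast
    rw [← sum_sub_distrib]
    apply sum_congr rfl
    intro j _; ring
  have e2 : ∑ j ∈ range (q + 1),
      (-1 : ℤ) ^ (q + j) * ((((2 * q + 3).choose j : ℤ) - xs j) + xs (2 * q + 1 - j))
      = ((2 * q + 2).choose q : ℤ) - ∑ x ∈ X, (-1 : ℤ) ^ (q + #x) := by
    have h1 : ((2 * q + 2).choose q : ℤ)
        = ∑ j ∈ range (q + 1), (-1 : ℤ) ^ (q + j) * ((2 * q + 3).choose j : ℤ) := by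
      have h2 := @Int.alternating_sum_range_choose_eq_choose (2 * q + 2) q
      have h3 : ∑ j ∈ range (q + 1), (-1 : ℤ) ^ (q + j) * ((2 * q + 3).choose j : ℤ)
          = (-1) ^ q * ∑ j ∈ range (q + 1), ((-1 : ℤ) ^ j * ((2 * q + 2 + 1).choose j : ℤ)) := by
        rw [mul_sum]
        apply sum_congr rfl
        intro j _
        rw [pow_add]; ring
      rw [h3, h2, ← mul_assoc, ← pow_add, ← two_mul, pow_mul]
      simp
    rw [hsgn, h1, ← sum_sub_distrib]
    apply sum_congr rfl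
    intro j _; ring
  rw [e1, e2] at hsum
  have h6 := cat_identity3 q
  have h7 : (4 * (bs (2 * q + 1) q : ℤ)) < #X := by exact_mod_cast hbig
  have h8 : (0 : ℤ) < q + 1 := by positivity
  nlinarith

end CodimThree
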