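import Pool.Agent.H.MP_602efc_co.Center

/-!
# Two families at mutual distance at least three (two steps of the isoperimetric inequality)
-/

namespace CodimThree

open Finset CodimTwo

variable {α : Type*} [DecidableEq α]

lemma Iso3_triangle (A B C : Finset α) : hd A C ≤ hd A B + hd B C := by
  unfold hd
  have h1 : #(A \ C) ≤ #(A \ B) + #(B \ C) := by
    refine le_trans (card_le_card ?_) (card_union_le _ _)
    intro x hx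
    simp only [mem_sdiff, mem_union] at hx ⊢
    tauto
  have h2 : #(C \ A) ≤ #(C \ B) + #(B \ A) := by
    refine le_trans (card_le_card ?_) (card_union_le _ _)
    intro x hx
    simp only [mem_sdiff, mem_union] at hx ⊢
    tauto
  omega

/-- Two steps of `iso`: apply `iso` to `𝒜` and the complement (in `u.powerset`) of the closed
neighbourhood `N = {X ⊆ u : ∃ A ∈ 𝒜, hd A X ≤ 1}`, and to `N` and `ℬ`; `ell_mono`. -/
theorem iso3 (n : ℕ) (u : Finset α) (hu : #u = n + 1) (𝒜 ℬ : Finset (Finset α))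
    (hA : ∀ A ∈ 𝒜, A ⊆ u) (hB : ∀ B ∈ ℬ, B ⊆ u) (hf : ∀ A ∈ 𝒜, ∀ B ∈ ℬ, 3 ≤ hd A B)
    (h0 : 0 < #𝒜) : ∃ r ≤ n, ∃ s ≤ n, (#ℬ : ℚ) + ell n s (ell n r (#𝒜 : ℚ)) ≤ 2 ^ (n + 1) := by
  obtain ⟨N, hN⟩ : ∃ N : Finset (Finset α), N = u.powerset.filter (fun X => ∃ A ∈ 𝒜, hd A X ≤ 1) :=
    ⟨_, rfl⟩
  obtain ⟨M, hM⟩ : ∃ M : Finset (Finset α),
      M = u.powerset.filter (fun X => ¬ ∃ A ∈ 𝒜, hd A X ≤ 1) := ⟨_, rfl⟩
  have hNu : ∀ X ∈ N, X ⊆ u := by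
    intro X hX
    rw [hN] at hX
    exact mem_powerset.mp (mem_filter.mp hX).1
  have hMu : ∀ X ∈ M, X ⊆ u := by
    intro X hX
    rw [hM] at hX
    exact mem_powerset.mp (mem_filter.mp hX).1
  have hcard : #N + #M = 2 ^ (n + 1) := by
    rw [hN, hM, card_filter_add_card_filter_not, card_powerset, hu]
  obtain ⟨r, hr, hr1⟩ := iso n u hu 𝒜 M hA hMu (by
    intro A hA0 X hX
    rw [hM] at hX
    by_contra hc
    exact (mem_filter.mp hX).2 ⟨A, hA0, by omega⟩) h0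
  have hNpos : 0 < #N := by
    obtain ⟨A, hA0⟩ := card_pos.mp h0
    apply card_pos.mpr
    refine ⟨A, ?_⟩
    rw [hN]
    exact mem_filter.mpr ⟨mem_powerset.mpr (hA A hA0), A, hA0, by rw [hd_self]; omega⟩
  obtain ⟨s, hs, hs1⟩ := iso n u hu N ℬ hNu hB (by
    intro X hX B hB0
    rw [hN] at hX
    obtain ⟨A, hA0, hAX⟩ := (mem_filter.mp hX).2
    have h1 := hf A hA0 B hB0
    have h2 := Iso3_triangle A X B
    omega) hNpos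
  refine ⟨r, hr, s, hs, ?_⟩
  have hcard' : (#N : ℚ) + #M = 2 ^ (n + 1) := by exact_mod_cast hcard
  have h3 : ell n r (#𝒜 : ℚ) ≤ (#N : ℚ) := by linarith
  have h4 := ell_mono n s hs h3
  linarith

lemma Iso3_compl_card {u : Finset α} {ℬ : Finset (Finset α)} (hB : ∀ B ∈ ℬ, B ⊆ u) :
    #(ℬ.image (fun B => u \ B)) = #ℬ := by
  apply card_image_of_injOn
  intro B hB0 B' hB0' he
  simp only at he
  have := congrArg (fun C => u \ C) he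
  simp only [Finset.sdiff_sdiff_eq_self (hB B hB0), Finset.sdiff_sdiff_eq_self (hB B' hB0')] at this
  exact this

/-- `iso3` for families at small mutual distance. -/
lemma Iso3_far (n : ℕ) (u : Finset α) (hu : #u = n + 1) (𝒜 ℬ : Finset (Finset α))
    (hA : ∀ A ∈ 𝒜, A ⊆ u) (hB : ∀ B ∈ ℬ, B ⊆ u)
    (hf : ∀ A ∈ 𝒜, ∀ B ∈ ℬ, hd A B + 3 ≤ #u)
    (h0 : 0 < #𝒜) : ∃ r ≤ n, ∃ s ≤ n, (#ℬ : ℚ) + ell n s (ell n r (#𝒜 : ℚ)) ≤ 2 ^ (n + 1) := by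
  have := iso3 n u hu 𝒜 (ℬ.image (fun B => u \ B)) hA
    (by
      intro B hB0
      obtain ⟨C, _, rfl⟩ := mem_image.mp hB0
      exact sdiff_subset)
    (by
      intro A hA0 B hB0
      obtain ⟨C, hC, rfl⟩ := mem_image.mp hB0
      have h3 := hd_compl (hA A hA0) (hB C hC)
      have h4 := hf A hA0 C hC
      omega) h0
  rwa [Iso3_compl_card hB] at this

/-- The composition of the two pieces, on `[2 s(n,p), 2 s(n,p+1)]`. -/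
lemma Iso3_comp (n p r s : ℕ) (hs : s ≤ n) (hp : p ≤ n) (x : ℚ)
    (h1 : 2 * (bs n p : ℚ) ≤ x) (h2 : x ≤ 2 * (bs n (p + 1) : ℚ)) :
    2 * (bs n (p + 2) : ℚ) + (((n : ℚ) - (p + 1)) / (p + 2)) *
      ((((n : ℚ) - p) / (p + 1)) * (x - 2 * (bs n p : ℚ))) ≤ ell n s (ell n r x) := by
  have e1 := ell_min n p x h1 h2 r
  have e2 := ell_mono n s hs e1
  have e3 : 2 * (bs n (p + 1) : ℚ) ≤ ell n p x := by
    have h := ell_mono n p hp h1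
    have h' : ell n p (2 * (bs n p : ℚ)) = 2 * (bs n (p + 1) : ℚ) := by unfold ell; ring
    rwa [h'] at h
  have e4 : ell n p x ≤ 2 * (bs n (p + 1 + 1) : ℚ) := by
    have h := ell_mono n p hp h2
    rwa [ell_node n p] at h
  have e5 := ell_min n (p + 1) (ell n p x) e3 e4 s
  refine le_trans (le_of_eq ?_) (e5.trans e2)
  unfold ell
  push_cast
  ring

/-- The composition beyond `2 s(n,p+1)`. -/
lemma Iso3_comp_node (n p r s : ℕ) (hr : r ≤ n) (hs : s ≤ n) (x : ℚ)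
    (h2 : 2 * (bs n (p + 1) : ℚ) ≤ x) :
    2 * (bs n (p + 3) : ℚ) ≤ ell n s (ell n r x) := by
  have m1 : 2 * (bs n p : ℚ) ≤ 2 * (bs n (p + 1) : ℚ) := by
    have : (bs n p : ℚ) ≤ bs n (p + 1) := by exact_mod_cast bs_mono n (by omega)
    linarith
  have m2 : 2 * (bs n (p + 1) : ℚ) ≤ 2 * (bs n (p + 2) : ℚ) := by
    have : (bs n (p + 1) : ℚ) ≤ bs n (p + 2) := by exact_mod_cast bs_mono n (by omega)
    linarith
  have e1 := ell_min n p _ m1 le_rfl r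
  rw [ell_node] at e1
  have e2 := ell_mono n r hr h2
  have e3 := ell_mono n s hs (e1.trans e2)
  have e4 := ell_min n (p + 1) _ m2 le_rfl s
  rw [show p + 2 = p + 1 + 1 by ring, ell_node n (p + 1)] at e4
  rw [show p + 3 = p + 1 + 2 by ring]
  exact e4.trans e3

lemma Iso3_odd_aux (p : ℕ) (u : Finset α) (hu : #u = 2 * p + 3) (𝒜 ℬ : Finset (Finset α))
    (hA : ∀ A ∈ 𝒜, A ⊆ u) (hB : ∀ B ∈ ℬ, B ⊆ u)
    (hf : ∀ A ∈ 𝒜, ∀ B ∈ ℬ, hd A B + 3 ≤ #u)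
    (h1 : 2 * bs (2 * p + 2) p ≤ #𝒜) (h2 : #𝒜 ≤ #ℬ) (h0 : 0 < #𝒜) :
    #𝒜 + #ℬ ≤ 2 * bs (2 * p + 3) (p + 1) := by
  obtain ⟨r, hr, s, hs, hle⟩ := Iso3_far (2 * p + 2) u hu 𝒜 ℬ hA hB hf h0
  have hq1 : 2 * (bs (2 * p + 2) p : ℚ) ≤ (#𝒜 : ℚ) := by exact_mod_cast h1
  have hq2 : (#𝒜 : ℚ) ≤ #ℬ := by exact_mod_cast h2
  have hev : (bs (2 * p + 2) (p + 2) : ℚ) + bs (2 * p + 2) (p + 1) = 4 ^ (p + 1) := by
    exact_mod_cast bs_even (p + 1)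
  have hpow : (2 : ℚ) ^ (2 * p + 2 + 1) = 2 * 4 ^ (p + 1) := by
    rw [pow_succ, show 2 * p + 2 = 2 * (p + 1) by ring, pow_mul]; norm_num; ring
  have hpas : (bs (2 * p + 3) (p + 1) : ℚ) = bs (2 * p + 2) (p + 1) + bs (2 * p + 2) p := by
    exact_mod_cast bs_pascal (2 * p + 2) p
  rw [hpow] at hle
  rcases le_or_gt (#𝒜 : ℚ) (2 * (bs (2 * p + 2) (p + 1) : ℚ)) with hc | hc
  · have h3 := Iso3_comp (2 * p + 2) p r s hs (by omega) (#𝒜 : ℚ) hq1 hc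
    have h4 : ((((2 * p + 2 : ℕ) : ℚ) - (p + 1)) / (p + 2)) *
        (((((2 * p + 2 : ℕ) : ℚ) - p) / (p + 1)) * ((#𝒜 : ℚ) - 2 * (bs (2 * p + 2) p : ℚ))) =
        (#𝒜 : ℚ) - 2 * (bs (2 * p + 2) p : ℚ) := by
      push_cast
      have e1 : ((p : ℚ) + 1) ≠ 0 := by positivity
      have e2 : ((p : ℚ) + 2) ≠ 0 := by positivity
      field_simp
      ring
    rw [h4] at h3
    have h5 : (#𝒜 : ℚ) + #ℬ ≤ 2 * (bs (2 * p + 3) (p + 1) : ℚ) := by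
      rw [hpas]; linarith
    exact_mod_cast h5
  · exfalso
    have h3 := Iso3_comp_node (2 * p + 2) p r s hr hs (#𝒜 : ℚ) hc.le
    have h4 : (bs (2 * p + 2) (p + 2) : ℚ) ≤ bs (2 * p + 2) (p + 3) := by
      exact_mod_cast bs_mono (2 * p + 2) (by omega)
    linarith

/-- Odd dimension `2 p + 3`. With `w = 2 bs (2p+2) p`, `W = 2 bs (2p+2) (p+1)`,
`w + W = 2 bs (2p+3) (p+1)`. If `#𝒜 ≤ #ℬ` and `w ≤ #𝒜` then `#𝒜 ≤ W` (otherwise `ell ∘ ell` at `W`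
is at least `2 bs (2p+2) (p+3)` and `#ℬ ≤ w`), and on `[w, W]` one has
`ell p x = W + (x - w) (p+2)/(p+1)` and `ell (p+1) y = 2 bs (2p+2) (p+2) + (y - W) (p+1)/(p+2)`, so
`#ℬ ≤ 2 ^ (2p+3) - 2 bs (2p+2) (p+2) - (#𝒜 - w) = W + w - #𝒜`. Pass to complements of the members
of `ℬ` (`hd_compl`) as in `far_even_aux`, `far_even`. -/
theorem far_odd3 (p : ℕ) (u : Finset α) (hu : #u = 2 * p + 3) (𝒜 ℬ : Finset (Finset α))
    (hA : ∀ A ∈ 𝒜, A ⊆ u) (hB : ∀ B ∈ ℬ, B ⊆ u)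
    (hf : ∀ A ∈ 𝒜, ∀ B ∈ ℬ, hd A B + 3 ≤ #u)
    (h1 : 2 * bs (2 * p + 2) p ≤ #𝒜) (h2 : 2 * bs (2 * p + 2) p ≤ #ℬ)
    (h0 : 0 < #𝒜) (h0' : 0 < #ℬ) :
    #𝒜 + #ℬ ≤ 2 * bs (2 * p + 3) (p + 1) := by
  rcases le_total (#𝒜) (#ℬ) with h | h
  · exact Iso3_odd_aux p u hu 𝒜 ℬ hA hB hf h1 h h0
  · rw [add_comm]
    exact Iso3_odd_aux p u hu ℬ 𝒜 hB hA
      (fun A hA0 B hB0 => by rw [hd_comm]; exact hf B hB0 A hA0) h2 h h0'

/-- `far_odd3` for families of fixed parity, one dimension higher (see `far_even_par`). -/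
theorem far_odd3_par (p : ℕ) (v : Finset α) (hv : #v = 2 * p + 4) (𝒜 ℬ : Finset (Finset α))
    (hA : ∀ A ∈ 𝒜, A ⊆ v) (hB : ∀ B ∈ ℬ, B ⊆ v) (π π' : ℕ)
    (pA : ∀ A ∈ 𝒜, #A % 2 = π) (pB : ∀ B ∈ ℬ, #B % 2 = π')
    (hf : ∀ A ∈ 𝒜, ∀ B ∈ ℬ, hd A B + 4 ≤ #v)
    (h1 : 2 * bs (2 * p + 2) p ≤ #𝒜) (h2 : 2 * bs (2 * p + 2) p ≤ #ℬ)
    (h0 : 0 < #𝒜) (h0' : 0 < #ℬ) :
    #𝒜 + #ℬ ≤ 2 * bs (2 * p + 3) (p + 1) := by
  obtain ⟨k, hk⟩ := card_pos.mp (show 0 < #v by omega)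
  have hvk : #(v.erase k) = 2 * p + 3 := by rw [card_erase_of_mem hk, hv]; rfl
  have e1 := card_image_erase_par k 𝒜 π pA
  have e2 := card_image_erase_par k ℬ π' pB
  have := far_odd3 p (v.erase k) hvk (𝒜.image (fun A => A.erase k)) (ℬ.image (fun A => A.erase k))
    (image_erase_sub hA) (image_erase_sub hB) (by
      intro A hA0 B hB0
      obtain ⟨A', hA', rfl⟩ := mem_image.mp hA0
      obtain ⟨B', hB', rfl⟩ := mem_image.mp hB0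
      have h1 := hd_erase_le k A' B'
      have h2 := hf A' hA' B' hB'
      omega) (by rw [e1]; exact h1) (by rw [e2]; exact h2) (by rw [e1]; exact h0)
      (by rw [e2]; exact h0')
  rwa [e1, e2] at this

/-- Even dimension `2 p + 4`. With `V = bs (2p+3) (p+1)`, `w = 2 bs (2p+3) p`. If `w ≤ #𝒜 ≤ #ℬ` then
`#𝒜 ≤ 2 V` (otherwise `#ℬ ≤ 2 V`), and on `[w, 2 V]`: `ell p x = 2 V + (x - w) (p+3)/(p+1)` and
`ell (p+1) y = 2 bs (2p+3) (p+2) + (y - 2 V) (p+2)/(p+2)`, `bs (2p+3) (p+2) = 4 ^ (p+1)`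
(`bs_half`). -/
theorem far_even3 (p : ℕ) (u : Finset α) (hu : #u = 2 * p + 4) (𝒜 ℬ : Finset (Finset α))
    (hA : ∀ A ∈ 𝒜, A ⊆ u) (hB : ∀ B ∈ ℬ, B ⊆ u)
    (hf : ∀ A ∈ 𝒜, ∀ B ∈ ℬ, hd A B + 3 ≤ #u)
    (h1 : 2 * bs (2 * p + 3) p ≤ #𝒜) (h2 : #𝒜 ≤ #ℬ) (h0 : 0 < #𝒜) :
    (p + 3) * #𝒜 + (p + 1) * #ℬ ≤ 4 * (p + 2) * bs (2 * p + 3) (p + 1) := by
  obtain ⟨r, hr, s, hs, hle⟩ := Iso3_far (2 * p + 3) u hu 𝒜 ℬ hA hB hf h0
  have hq1 : 2 * (bs (2 * p + 3) p : ℚ) ≤ (#𝒜 : ℚ) := by exact_mod_cast h1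
  have hq2 : (#𝒜 : ℚ) ≤ #ℬ := by exact_mod_cast h2
  have hhalf : (bs (2 * p + 3) (p + 2) : ℚ) = 4 ^ (p + 1) := by exact_mod_cast bs_half (p + 1)
  have hpow : (2 : ℚ) ^ (2 * p + 3 + 1) = 4 * 4 ^ (p + 1) := by
    rw [show 2 * p + 3 + 1 = 2 * (p + 1) + 2 by ring, pow_add, pow_mul]; norm_num; ring
  have hb1 : (bs (2 * p + 3) (p + 1) : ℚ) = bs (2 * p + 3) p + ((2 * p + 3).choose p : ℚ) := by
    exact_mod_cast bs_succ (2 * p + 3) p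
  have hb2 : (bs (2 * p + 3) (p + 2) : ℚ) =
      bs (2 * p + 3) (p + 1) + ((2 * p + 3).choose (p + 1) : ℚ) := by
    exact_mod_cast bs_succ (2 * p + 3) (p + 1)
  have hb3 : (bs (2 * p + 3) (p + 3) : ℚ) =
      bs (2 * p + 3) (p + 2) + ((2 * p + 3).choose (p + 2) : ℚ) := by
    exact_mod_cast bs_succ (2 * p + 3) (p + 2)
  have hsym : ((2 * p + 3).choose (p + 2) : ℚ) = ((2 * p + 3).choose (p + 1) : ℚ) := by
    have := Nat.choose_symm_of_eq_add (show 2 * p + 3 = (p + 2) + (p + 1) by ring)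
    exact_mod_cast this
  have hslope : ((p : ℚ) + 1) * ((2 * p + 3).choose (p + 1) : ℚ) =
      ((p : ℚ) + 3) * ((2 * p + 3).choose p : ℚ) := by
    have h := choose_slope (2 * p + 3) p
    rw [← h]
    push_cast
    have e1 : ((p : ℚ) + 1) ≠ 0 := by positivity
    field_simp
    ring
  rw [hpow] at hle
  rcases le_or_gt (#𝒜 : ℚ) (2 * (bs (2 * p + 3) (p + 1) : ℚ)) with hc | hc
  · have h3 := Iso3_comp (2 * p + 3) p r s hs (by omega) (#𝒜 : ℚ) hq1 hc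
    have h4 : ((((2 * p + 3 : ℕ) : ℚ) - (p + 1)) / (p + 2)) *
        (((((2 * p + 3 : ℕ) : ℚ) - p) / (p + 1)) * ((#𝒜 : ℚ) - 2 * (bs (2 * p + 3) p : ℚ))) =
        ((p : ℚ) + 3) / (p + 1) * ((#𝒜 : ℚ) - 2 * (bs (2 * p + 3) p : ℚ)) := by
      push_cast
      have e1 : ((p : ℚ) + 1) ≠ 0 := by positivity
      have e2 : ((p : ℚ) + 2) ≠ 0 := by positivity
      field_simp
      ring
    rw [h4] at h3
    have h6 : (#ℬ : ℚ) + ((p : ℚ) + 3) / (p + 1) * ((#𝒜 : ℚ) - 2 * (bs (2 * p + 3) p : ℚ)) ≤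
        2 * (bs (2 * p + 3) (p + 2) : ℚ) := by
      rw [hhalf] at h3 ⊢; linarith
    have hp1 : (0 : ℚ) < (p : ℚ) + 1 := by positivity
    have h7 := mul_le_mul_of_nonneg_left h6 hp1.le
    have h8 : ((p : ℚ) + 1) * ((#ℬ : ℚ) + ((p : ℚ) + 3) / (p + 1) *
        ((#𝒜 : ℚ) - 2 * (bs (2 * p + 3) p : ℚ))) =
        (p + 1) * (#ℬ : ℚ) + (p + 3) * ((#𝒜 : ℚ) - 2 * (bs (2 * p + 3) p : ℚ)) := by
      field_simp
    rw [h8] at h7
    have h5 : ((p : ℚ) + 3) * #𝒜 + (p + 1) * #ℬ ≤ 4 * (p + 2) * (bs (2 * p + 3) (p + 1) : ℚ) := by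
      have h9 : ((p : ℚ) + 1) * (2 * (bs (2 * p + 3) (p + 2) : ℚ)) +
          (p + 3) * (2 * (bs (2 * p + 3) p : ℚ)) = 4 * (p + 2) * (bs (2 * p + 3) (p + 1) : ℚ) := by
        rw [hb2, show (bs (2 * p + 3) p : ℚ) =
          bs (2 * p + 3) (p + 1) - ((2 * p + 3).choose p : ℚ) by rw [hb1]; ring]
        linear_combination 2 * hslope
      linarith
    exact_mod_cast h5
  · exfalso
    have h3 := Iso3_comp_node (2 * p + 3) p r s hr hs (#𝒜 : ℚ) hc.le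
    linarith

/-- `far_even3` for families of fixed parity, one dimension higher. -/
theorem far_even3_par (p : ℕ) (v : Finset α) (hv : #v = 2 * p + 5) (𝒜 ℬ : Finset (Finset α))
    (hA : ∀ A ∈ 𝒜, A ⊆ v) (hB : ∀ B ∈ ℬ, B ⊆ v) (π π' : ℕ)
    (pA : ∀ A ∈ 𝒜, #A % 2 = π) (pB : ∀ B ∈ ℬ, #B % 2 = π')
    (hf : ∀ A ∈ 𝒜, ∀ B ∈ ℬ, hd A B + 4 ≤ #v)
    (h1 : 2 * bs (2 * p + 3) p ≤ #𝒜) (h2 : #𝒜 ≤ #ℬ) (h0 : 0 < #𝒜) :
    (p + 3) * #𝒜 + (p + 1) * #ℬ ≤ 4 * (p + 2) * bs (2 * p + 3) (p + 1) := by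
  obtain ⟨k, hk⟩ := card_pos.mp (show 0 < #v by omega)
  have hvk : #(v.erase k) = 2 * p + 4 := by rw [card_erase_of_mem hk, hv]; rfl
  have e1 := card_image_erase_par k 𝒜 π pA
  have e2 := card_image_erase_par k ℬ π' pB
  have := far_even3 p (v.erase k) hvk (𝒜.image (fun A => A.erase k)) (ℬ.image (fun A => A.erase k))
    (image_erase_sub hA) (image_erase_sub hB) (by
      intro A hA0 B hB0
      obtain ⟨A', hA', rfl⟩ := mem_image.mp hA0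
      obtain ⟨B', hB', rfl⟩ := mem_image.mp hB0
      have h1 := hd_erase_le k A' B'
      have h2 := hf A' hA' B' hB'
      omega) (by rw [e1]; exact h1) (by rw [e1, e2]; exact h2) (by rw [e1]; exact h0)
  rwa [e1, e2] at this

end CodimThree
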