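import Pool.Agent.H.MP_602efc_co.Descent
import Pool.Agent.H.MP_602efc_co.C3.Iso3
import Pool.Agent.H.MP_602efc_co.C3.Fin3

/-!
# The parity of the centre of a large family of even diameter `2q` in dimension `2q+4`
-/

namespace CodimThree

open Finset CodimTwo
open scoped FinsetFamily

/-- `X` has diameter at most `2q`, more than `4 s(2q+1,q)` members, every coordinate and the parity
class of `q` have at most `2 s(2q+1,q)` members. -/
structure Phi3 (n q : ℕ) (X : Finset (Finset (Fin n))) : Prop where
  diam : ∀ x ∈ X, ∀ y ∈ X, hd x y ≤ 2 * q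
  big : 4 * bs (2 * q + 1) q < #X
  coord : ∀ j : Fin n, #(X.filter (fun x => j ∈ x)) ≤ 2 * bs (2 * q + 1) q
  par : #(X.filter (fun x => #x % 2 = q % 2)) ≤ 2 * bs (2 * q + 1) q

/-- The compression step (compare `phi_step` in `Center.lean`). Put `q = p + 1`, `V = s(2q+1,q)`,
`w = 2 s(2q,q-1)`, `W = 2 s(2q,q)`, `w + W = 2 V` (`bs_pascal`). `X0`, `X1` the subfamilies without and
with `j` (in dimension `2q+2`), `a = #X0^e`, `b = #X0^o`, `c = #X1^e`, `d = #X1^o`, where `e` is the
parity of `q` and `o` the other one; `a' = #(X0 ∪ X1)^e`, `b' = #(X0 ∪ X1)^o`, `c' = #(X0 ∩ X1)^e`,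
`d' = #(X0 ∩ X1)^o`; `a + c = a' + c'`, `b + d = b' + d'`. Hypotheses: `a + d ≤ 2V` (`par`),
`c + d ≤ 2V` (`coord j`), `a + b + c + d > 4V`. Suppose `a' + d' > 2V` (failure of `par` for `𝓓 j X`).
Facts: (1) `a' ≤ W` or `b' ≤ W` (`far_odd_par` with `hd ≤ 2q - 1`, the diameter of `𝓓 j X` being at
most `2q`); (2) `far_odd3_par`: if `a, c` (or `b, d`, or `b', d'`) are both positive and at least `w`
then their sum is at most `2V` (same parity, `hd ≤ 2q - 1`, so `hd ≤ 2q - 2`).
Case `b + d > 2V`: by (2) for `b', d'` (`d' ≤ b'`) `d' < w` or `d' = 0`, so `a' > W` and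
`b' > W`, against (1). Case `b + d ≤ 2V`: then `a + c > 2V`, so by (2) `a < w` or `c < w` or one of
them is `0`; as `b + c ≥ #X - 2V > 2V` and `a + b > 2V`, in each case `b > W`; so `b' > W`, `a' ≤ W`
by (1), `d' > w`, `d > w`, and (2) for `b, d` gives `b + d ≤ 2V < W + w`, a contradiction. -/
lemma phi_step3 (n p : ℕ) (hn : n = 2 * (p + 1) + 3) (X : Finset (Finset (Fin n))) (j : Fin n)
    (h : Phi3 n (p + 1) X) : Phi3 n (p + 1) (𝓓 j X) := by
  have hdiam' := compression_diam j X _ h.diam
  set X0 := X.nonMemberSubfamily j with hX0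
  set X1 := X.memberSubfamily j with hX1
  have n0 := compression_nonMember j X
  have n1 := compression_member j X
  rw [← hX0, ← hX1] at n0 n1
  have m0 : ∀ s, s ∈ X0 ↔ s ∈ X ∧ j ∉ s := fun s => by rw [hX0, mem_nonMemberSubfamily]
  have m1 : ∀ s, s ∈ X1 ↔ insert j s ∈ X ∧ j ∉ s := fun s => by rw [hX1, mem_memberSubfamily]
  have hv : #((univ : Finset (Fin n)).erase j) = 2 * p + 4 := by
    rw [card_erase_of_mem (mem_univ j), card_univ, Fintype.card_fin]; omega
  have subv : ∀ s : Finset (Fin n), j ∉ s → s ⊆ (univ : Finset (Fin n)).erase j := by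
    intro s hs x hx
    rw [mem_erase]
    exact ⟨fun h => hs (h ▸ hx), mem_univ x⟩
  have subA : ∀ (P : Finset (Fin n) → Prop) [DecidablePred P], ∀ s ∈ X0.filter P,
      s ⊆ (univ : Finset (Fin n)).erase j := by
    intro P _ s hs
    exact subv s ((m0 s).mp (mem_filter.mp hs).1).2
  have subB : ∀ (P : Finset (Fin n) → Prop) [DecidablePred P], ∀ s ∈ X1.filter P,
      s ⊆ (univ : Finset (Fin n)).erase j := by
    intro P _ s hs
    exact subv s ((m1 s).mp (mem_filter.mp hs).1).2
  have subU : ∀ (P : Finset (Fin n) → Prop) [DecidablePred P], ∀ s ∈ (X0 ∪ X1).filter P,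
      s ⊆ (univ : Finset (Fin n)).erase j := by
    intro P _ s hs
    rcases mem_union.mp (mem_filter.mp hs).1 with h1 | h1
    · exact subv s ((m0 s).mp h1).2
    · exact subv s ((m1 s).mp h1).2
  have subI : ∀ (P : Finset (Fin n) → Prop) [DecidablePred P], ∀ s ∈ (X0 ∩ X1).filter P,
      s ⊆ (univ : Finset (Fin n)).erase j := by
    intro P _ s hs
    exact subv s ((m0 s).mp (mem_inter.mp (mem_filter.mp hs).1).1).2
  -- opposite corners of the same parity
  have cross : ∀ x ∈ X0, ∀ y ∈ X1, #x % 2 = #y % 2 → hd x y ≤ 2 * p := by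
    intro x hx y hy hxy
    have h1 := (m0 x).mp hx
    have h2 := (m1 y).mp hy
    have h3 := h.diam x h1.1 _ h2.1
    rw [hd_insert_right h1.2 h2.2] at h3
    have h4 := hd_parity x y
    omega
  have hτ : ∀ π : ℕ, 2 * bs (2 * p + 2) p ≤ #(X0.filter (fun s => #s % 2 = π)) →
      2 * bs (2 * p + 2) p ≤ #(X1.filter (fun s => #s % 2 = π)) →
      0 < #(X0.filter (fun s => #s % 2 = π)) → 0 < #(X1.filter (fun s => #s % 2 = π)) →
      #(X0.filter (fun s => #s % 2 = π)) + #(X1.filter (fun s => #s % 2 = π))
        ≤ 2 * bs (2 * p + 3) (p + 1) := by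
    intro π h1 h2 h3 h4
    refine far_odd3_par p ((univ : Finset (Fin n)).erase j) hv _ _ (subA _) (subB _) π π
      (fun A hA => (mem_filter.mp hA).2) (fun A hA => (mem_filter.mp hA).2) ?_ h1 h2 h3 h4
    intro x hx y hy
    rw [mem_filter] at hx hy
    have := cross x hx.1 y hy.1 (hx.2.trans hy.2.symm)
    omega
  have hυ : ∀ π : ℕ, 2 * bs (2 * p + 2) p ≤ #((X0 ∪ X1).filter (fun s => #s % 2 = π)) →
      2 * bs (2 * p + 2) p ≤ #((X0 ∩ X1).filter (fun s => #s % 2 = π)) →
      0 < #((X0 ∪ X1).filter (fun s => #s % 2 = π)) →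
      0 < #((X0 ∩ X1).filter (fun s => #s % 2 = π)) →
      #((X0 ∪ X1).filter (fun s => #s % 2 = π)) + #((X0 ∩ X1).filter (fun s => #s % 2 = π))
        ≤ 2 * bs (2 * p + 3) (p + 1) := by
    intro π h1 h2 h3 h4
    refine far_odd3_par p ((univ : Finset (Fin n)).erase j) hv _ _ (subU _) (subI _) π π
      (fun A hA => (mem_filter.mp hA).2) (fun A hA => (mem_filter.mp hA).2) ?_ h1 h2 h3 h4
    intro x hx y hy
    rw [mem_filter] at hx hy
    have hy' := mem_inter.mp hy.1
    have hle : hd x y ≤ 2 * p := by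
      rcases mem_union.mp hx.1 with h5 | h5
      · exact cross x h5 y hy'.2 (hx.2.trans hy.2.symm)
      · rw [hd_comm]
        exact cross y hy'.1 x h5 (hy.2.trans hx.2.symm)
    omega
  -- the two parity classes of the union
  have hu : #((X0 ∪ X1).filter (fun s => #s % 2 = (p + 1) % 2)) ≤ 2 * bs (2 * p + 2) (p + 1) ∨
      #((X0 ∪ X1).filter (fun s => #s % 2 = p % 2)) ≤ 2 * bs (2 * p + 2) (p + 1) := by
    have := far_odd_par (p + 1) ((univ : Finset (Fin n)).erase j) (by rw [hv]; ring)
      ((X0 ∪ X1).filter (fun s => #s % 2 = (p + 1) % 2)) ((X0 ∪ X1).filter (fun s => #s % 2 = p % 2))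
      (subU _) (subU _) _ _
      (fun A hA => (mem_filter.mp hA).2) (fun A hA => (mem_filter.mp hA).2) (by
        intro x hx y hy
        rw [mem_filter, ← n0, mem_nonMemberSubfamily] at hx hy
        have h3 := hdiam' x hx.1.1 y hy.1.1
        have h4 := hd_parity x y
        rw [hv]
        omega)
    rwa [show 2 * (p + 1) = 2 * p + 2 by ring] at this
  -- counts
  have cardsplit : ∀ (Z : Finset (Finset (Fin n))),
      #Z = #(Z.filter (fun s => #s % 2 = (p + 1) % 2)) + #(Z.filter (fun s => #s % 2 = p % 2)) := by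
    intro Z
    rw [← card_filter_add_card_filter_not (s := Z) (fun s => #s % 2 = (p + 1) % 2)]
    congr 2
    apply filter_congr
    intro s _
    omega
  have hEins : ∀ s ∈ X1, (#(insert j s) % 2 = (p + 1) % 2 ↔ #s % 2 = p % 2) := by
    intro s hs
    rw [card_insert_of_notMem ((m1 s).mp hs).2]
    omega
  have hparX : #(X.filter (fun x => #x % 2 = (p + 1) % 2))
      = #(X0.filter (fun s => #s % 2 = (p + 1) % 2)) + #(X1.filter (fun s => #s % 2 = p % 2)) := by
    rw [card_filter_split j X]
    congr 2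
    apply filter_congr
    intro s hs
    exact hEins s hs
  have hcardX : #X1 + #X0 = #X := card_memberSubfamily_add_card_nonMemberSubfamily j X
  have hcoordX : #(X.filter (fun x => j ∈ x)) = #X1 := by
    rw [card_filter_split j X]
    have h1 : (X.nonMemberSubfamily j).filter (fun x => j ∈ x) = ∅ := by
      rw [filter_eq_empty_iff]
      intro s hs
      rw [mem_nonMemberSubfamily] at hs
      exact hs.2
    have h2 : (X.memberSubfamily j).filter (fun s => j ∈ insert j s) = X.memberSubfamily j := by
      rw [filter_eq_self]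
      intro s _
      exact mem_insert_self j s
    rw [h1, h2, card_empty, zero_add]
  have hparX' : #((𝓓 j X).filter (fun x => #x % 2 = (p + 1) % 2))
      = #((X0 ∪ X1).filter (fun s => #s % 2 = (p + 1) % 2))
        + #((X0 ∩ X1).filter (fun s => #s % 2 = p % 2)) := by
    rw [card_filter_split j (𝓓 j X), n0, n1]
    congr 2
    apply filter_congr
    intro s hs
    exact hEins s (mem_inter.mp hs).2
  have ui1 := card_filter_union_inter X0 X1 (fun s => #s % 2 = (p + 1) % 2)
  have ui2 := card_filter_union_inter X0 X1 (fun s => #s % 2 = p % 2)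
  have hb : bs (2 * p + 3) (p + 1) = bs (2 * p + 2) (p + 1) + bs (2 * p + 2) p :=
    bs_pascal (2 * p + 2) p
  have sX0 := cardsplit X0
  have sX1 := cardsplit X1
  have hbq : bs (2 * (p + 1) + 1) (p + 1) = bs (2 * p + 3) (p + 1) := by
    rw [show 2 * (p + 1) + 1 = 2 * p + 3 by ring]
  have hcj := h.coord j
  rw [hcoordX, hbq] at hcj
  have hpar := h.par
  rw [hparX, hbq] at hpar
  have hbig := h.big
  rw [hbq] at hbig
  have t1 := hτ ((p + 1) % 2)
  have t2 := hτ (p % 2)
  have t3 := hυ (p % 2)
  have mono1 : #(X0.filter (fun s => #s % 2 = p % 2))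
      ≤ #((X0 ∪ X1).filter (fun s => #s % 2 = p % 2)) :=
    card_le_card (filter_subset_filter _ subset_union_left)
  have mono3 : #((X0 ∩ X1).filter (fun s => #s % 2 = p % 2))
      ≤ #(X1.filter (fun s => #s % 2 = p % 2)) :=
    card_le_card (filter_subset_filter _ inter_subset_right)
  refine ⟨hdiam', ?_, ?_, ?_⟩
  · rw [Down.card_compression]; exact h.big
  · intro k
    by_cases hkj : k = j
    · subst hkj
      have : #((𝓓 k X).filter (fun x => k ∈ x)) = #(X0 ∩ X1) := by
        rw [card_filter_split k (𝓓 k X), n0, n1]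
        have h1 : (X0 ∪ X1).filter (fun x => k ∈ x) = ∅ := by
          rw [filter_eq_empty_iff]
          intro s hs
          rw [mem_union] at hs
          rcases hs with hs | hs
          · exact ((m0 s).mp hs).2
          · exact ((m1 s).mp hs).2
        have h2 : (X0 ∩ X1).filter (fun s => k ∈ insert k s) = X0 ∩ X1 := by
          rw [filter_eq_self]
          intro s _
          exact mem_insert_self k s
        rw [h1, h2, card_empty, zero_add]
      rw [this, hbq]
      exact (card_le_card inter_subset_right).trans hcj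
    · have e : #((𝓓 j X).filter (fun x => k ∈ x)) = #(X.filter (fun x => k ∈ x)) := by
        have hins : ∀ Z : Finset (Finset (Fin n)),
            Z.filter (fun s => k ∈ insert j s) = Z.filter (fun s => k ∈ s) := by
          intro Z
          apply filter_congr
          intro s _
          rw [mem_insert]
          constructor
          · rintro (h | h)
            · exact absurd h hkj
            · exact h
          · exact Or.inr
        rw [card_filter_split j (𝓓 j X), card_filter_split j X, n0, n1, hins, hins]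
        exact card_filter_union_inter X0 X1 _
      rw [e]; exact h.coord k
  · rw [hbq, hparX']
    clear hτ hυ cross subA subB subU subI m0 m1 n0 n1 hdiam' hparX hparX' hcoordX hEins cardsplit
      subv hX0 hX1 h
    generalize #(X0.filter (fun s => #s % 2 = (p + 1) % 2)) = aA at *
    generalize #(X0.filter (fun s => #s % 2 = p % 2)) = bB at *
    generalize #(X1.filter (fun s => #s % 2 = (p + 1) % 2)) = cC at *
    generalize #(X1.filter (fun s => #s % 2 = p % 2)) = dD at *
    generalize #((X0 ∪ X1).filter (fun s => #s % 2 = (p + 1) % 2)) = aU at *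
    generalize #((X0 ∪ X1).filter (fun s => #s % 2 = p % 2)) = bU at *
    generalize #((X0 ∩ X1).filter (fun s => #s % 2 = (p + 1) % 2)) = cI at *
    generalize #((X0 ∩ X1).filter (fun s => #s % 2 = p % 2)) = dI at *
    generalize bs (2 * p + 2) p = τ at *
    generalize bs (2 * p + 2) (p + 1) = ω at *
    generalize bs (2 * p + 3) (p + 1) = ν at *
    omega

/-- Compare `phi_false` in `Descent.lean`. -/
theorem phi_false3 (n p : ℕ) (hn : n = 2 * (p + 1) + 3) :
    ∀ N : ℕ, ∀ X : Finset (Finset (Fin n)), ∑ x ∈ X, #x = N → Phi3 n (p + 1) X → False := by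
  intro N
  induction N using Nat.strong_induction_on with
  | _ N ih =>
    intro X hN h
    by_cases hdown : ∀ x ∈ X, ∀ j ∈ x, x.erase j ∈ X
    · exact final_false3 n (p + 1) hn X hdown h.diam h.big h.par
    · push Not at hdown
      obtain ⟨x, hx, j, hj, hnot⟩ := hdown
      have hlt := weight_lt j X x hx hj hnot
      exact ih _ (by omega) (𝓓 j X) rfl (phi_step3 n p hn X j h)

end CodimThree
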