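import Pool.Agent.H.MP_602efc_co.Parity
import Pool.Agent.H.MP_602efc_co.As.Kl
import Pool.Agent.H.MP_602efc_co.C3.Step3

/-!
# Centres, and the choice of the parity functional
-/

namespace CodimThree

open Finset CodimTwo
open scoped symmDiff

/-- Parity of the centre (compare `centre_parity` in `Parity.lean`; use `phi_false3`). -/
theorem centre_parity3 (p : ℕ) (n : ℕ) (hn : n = 2 * (p + 1) + 3)
    (Y : Finset (Finset (Fin (n + 1)))) (π : ℕ) (hπ : ∀ y ∈ Y, #y % 2 = π % 2)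
    (hdiam : ∀ x ∈ Y, ∀ y ∈ Y, hd x y ≤ 2 * (p + 1))
    (hbig : 4 * bs (2 * (p + 1) + 1) (p + 1) < #Y) (c : Finset (Fin (n + 1)))
    (hc : ∀ i, #(Y.filter (fun y => i ∈ y ∆ c)) ≤ 2 * bs (2 * (p + 1) + 1) (p + 1)) :
    #c % 2 = (π + (p + 1)) % 2 := by
  by_contra hcon
  have hpar : ∀ y ∈ Y, #(y ∆ c) % 2 = (p + 1 + 1) % 2 := by
    intro y hy
    have h1 := hd_parity y c
    rw [hd_eq_symmDiff] at h1
    have h2 := hπ y hy
    omega
  set g : Finset (Fin (n + 1)) → Finset (Fin n) := fun y => drop (y ∆ c) with hg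
  have hlast : ∀ y ∈ Y, (#(g y) % 2 = (p + 1) % 2 ↔ Fin.last n ∈ y ∆ c) := by
    intro y hy
    have h1 := hpar y hy
    rw [hg]
    simp only
    rw [card_drop]
    constructor
    · intro h2
      by_contra h3
      rw [erase_eq_of_notMem h3] at h2
      omega
    · intro h3
      have := card_erase_add_one h3
      omega
  have hginj : Set.InjOn g Y := by
    intro x hx y hy hxy
    have hx' := hlast x hx
    have hy' := hlast y hy
    rw [hxy] at hx'
    have hiff : Fin.last n ∈ x ∆ c ↔ Fin.last n ∈ y ∆ c := hx'.symm.trans hy'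
    have h2 : x ∆ c = y ∆ c := by
      have h3 : (x ∆ c).erase (Fin.last n) = (y ∆ c).erase (Fin.last n) := by
        rw [← image_drop, ← image_drop]
        exact congrArg _ hxy
      by_cases h4 : Fin.last n ∈ x ∆ c
      · rw [← insert_erase h4, ← insert_erase (hiff.mp h4), h3]
      · rwa [erase_eq_of_notMem h4, erase_eq_of_notMem (fun h => h4 (hiff.mpr h))] at h3
    exact symmDiff_inj c h2
  have hcardfilter : ∀ (P : Finset (Fin n) → Prop) [DecidablePred P],
      #((Y.image g).filter P) = #(Y.filter (fun y => P (g y))) := by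
    intro P _
    rw [filter_image, card_image_of_injOn]
    exact hginj.mono (by intro x hx; exact (mem_filter.mp hx).1)
  refine phi_false3 n p hn _ (Y.image g) rfl ⟨?_, ?_, ?_, ?_⟩
  · intro x hx y hy
    obtain ⟨x', hx', rfl⟩ := mem_image.mp hx
    obtain ⟨y', hy', rfl⟩ := mem_image.mp hy
    refine (hd_drop_le _ _).trans ?_
    rw [hd_translate]
    exact hdiam x' hx' y' hy'
  · rw [card_image_of_injOn hginj]; exact hbig
  · intro j
    rw [hcardfilter]
    have : Y.filter (fun y => j ∈ g y) = Y.filter (fun y => j.castSucc ∈ y ∆ c) := by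
      apply filter_congr
      intro y _
      exact mem_drop _ _
    rw [this]
    exact hc _
  · rw [hcardfilter]
    have : Y.filter (fun y => #(g y) % 2 = (p + 1) % 2)
        = Y.filter (fun y => Fin.last n ∈ y ∆ c) := by
      apply filter_congr
      intro y hy
      exact hlast y hy
    rw [this]
    exact hc _

/-- The two halves in direction `i` (`far_even3_par`). -/
lemma Cen3_pair (p n : ℕ) (hn : n = 2 * (p + 1) + 3) (Y : Finset (Finset (Fin (n + 1)))) (π : ℕ)
    (hπ : ∀ y ∈ Y, #y % 2 = π % 2) (hdiam : ∀ x ∈ Y, ∀ y ∈ Y, hd x y ≤ 2 * (p + 1))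
    (i : Fin (n + 1)) :
    (2 * bs (2 * p + 3) p ≤ #(Y.filter (fun y => i ∉ y)) →
      #(Y.filter (fun y => i ∉ y)) ≤ #(Y.filter (fun y => i ∈ y)) →
      0 < #(Y.filter (fun y => i ∉ y)) →
      (p + 3) * #(Y.filter (fun y => i ∉ y)) + (p + 1) * #(Y.filter (fun y => i ∈ y)) ≤
        4 * (p + 2) * bs (2 * p + 3) (p + 1)) ∧
    (2 * bs (2 * p + 3) p ≤ #(Y.filter (fun y => i ∈ y)) →
      #(Y.filter (fun y => i ∈ y)) ≤ #(Y.filter (fun y => i ∉ y)) →
      0 < #(Y.filter (fun y => i ∈ y)) →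
      (p + 3) * #(Y.filter (fun y => i ∈ y)) + (p + 1) * #(Y.filter (fun y => i ∉ y)) ≤
        4 * (p + 2) * bs (2 * p + 3) (p + 1)) := by
  have hv : #((univ : Finset (Fin (n + 1))).erase i) = 2 * p + 5 := by
    rw [card_erase_of_mem (mem_univ i), card_univ, Fintype.card_fin, hn]; omega
  have h0 : #(Y.nonMemberSubfamily i) = #(Y.filter (fun y => i ∉ y)) := rfl
  have h1 : #(Y.memberSubfamily i) = #(Y.filter (fun y => i ∈ y)) := by
    have e1 := card_memberSubfamily_add_card_nonMemberSubfamily i Y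
    have e2 := card_filter_add_card_filter_not (s := Y) (fun y => i ∈ y)
    rw [h0] at e1
    omega
  rw [← h0, ← h1]
  have subv : ∀ s : Finset (Fin (n + 1)), i ∉ s → s ⊆ (univ : Finset (Fin (n + 1))).erase i := by
    intro s hs x hx
    rw [mem_erase]
    exact ⟨fun h => hs (h ▸ hx), mem_univ x⟩
  have s0 : ∀ A ∈ Y.nonMemberSubfamily i, A ⊆ (univ : Finset (Fin (n + 1))).erase i := by
    intro A hA
    rw [mem_nonMemberSubfamily] at hA
    exact subv A hA.2
  have s1 : ∀ A ∈ Y.memberSubfamily i, A ⊆ (univ : Finset (Fin (n + 1))).erase i := by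
    intro A hA
    rw [mem_memberSubfamily] at hA
    exact subv A hA.2
  have p0 : ∀ A ∈ Y.nonMemberSubfamily i, #A % 2 = π % 2 := by
    intro A hA
    rw [mem_nonMemberSubfamily] at hA
    exact hπ A hA.1
  have p1 : ∀ A ∈ Y.memberSubfamily i, #A % 2 = (π + 1) % 2 := by
    intro A hA
    rw [mem_memberSubfamily] at hA
    have := hπ _ hA.1
    rw [card_insert_of_notMem hA.2] at this
    omega
  have hf : ∀ A ∈ Y.nonMemberSubfamily i, ∀ B ∈ Y.memberSubfamily i,
      hd A B + 4 ≤ #((univ : Finset (Fin (n + 1))).erase i) := by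
    intro A hA B hB
    rw [mem_nonMemberSubfamily] at hA
    rw [mem_memberSubfamily] at hB
    have h2 := hdiam A hA.1 _ hB.1
    rw [hd_insert_right hA.2 hB.2] at h2
    rw [hv]
    omega
  constructor
  · intro a1 a2 a3
    exact far_even3_par p _ hv _ _ s0 s1 _ _ p0 p1 hf a1 a2 a3
  · intro a1 a2 a3
    exact far_even3_par p _ hv _ _ s1 s0 _ _ p1 p0
      (fun A hA B hB => by rw [hd_comm]; exact hf B hB A hA) a1 a2 a3

/-- Kleitman's theorem for a family of fixed parity. -/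
lemma Cen3_kl (p n : ℕ) (hn : n = 2 * (p + 1) + 3) (Y : Finset (Finset (Fin (n + 1)))) (π : ℕ)
    (hπ : ∀ y ∈ Y, #y % 2 = π % 2) (hdiam : ∀ x ∈ Y, ∀ y ∈ Y, hd x y ≤ 2 * (p + 1)) :
    #Y ≤ bs (2 * (p + 1) + 3) (p + 2) := by
  have h1 := card_image_erase_par (Fin.last n) Y (π % 2) hπ
  have hv : #((univ : Finset (Fin (n + 1))).erase (Fin.last n)) = 2 * (p + 1) + 3 := by
    rw [card_erase_of_mem (mem_univ _), card_univ, Fintype.card_fin, hn]; omega
  have h2 := CovAs.kleitman (d := 2 * (p + 1) + 3) (D := 2 * (p + 1)) (by omega)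
    ((univ : Finset (Fin (n + 1))).erase (Fin.last n)) hv (Y.image (fun A => A.erase (Fin.last n)))
    (image_erase_sub (fun A _ => subset_univ A)) (by
      intro A hA B hB
      obtain ⟨A', hA', rfl⟩ := mem_image.mp hA
      obtain ⟨B', hB', rfl⟩ := mem_image.mp hB
      exact (hd_erase_le _ A' B').trans (hdiam A' hA' B' hB'))
  rw [h1, CovAs.gK_even] at h2
  exact h2

/-- The numerical inequality for `half3`. -/
lemma Cen3_num (p : ℕ) : (p + 1) * bs (2 * (p + 1) + 3) (p + 2) + 4 * bs (2 * p + 3) p ≤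
    4 * (p + 2) * bs (2 * p + 3) (p + 1) := by
  have h1 := cat_identity3 (p + 1)
  have h2 : (bs (2 * p + 3) (p + 1) : ℤ) = bs (2 * p + 3) p + ((2 * p + 3).choose p : ℤ) := by
    exact_mod_cast bs_succ (2 * p + 3) p
  have h3 : ((2 * p + 3).choose (p + 1) : ℤ) * ((p : ℤ) + 1) = (2 * p + 3).choose p * ((p : ℤ) + 3) := by
    have := Nat.choose_succ_right_eq (2 * p + 3) p
    rw [show 2 * p + 3 - p = p + 3 by omega] at this
    exact_mod_cast this
  have h4 : ((2 * (p + 1) + 2).choose (p + 1) : ℤ) =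
      (2 * p + 3).choose p + (2 * p + 3).choose (p + 1) := by
    rw [show 2 * (p + 1) + 2 = (2 * p + 3) + 1 by ring]
    exact_mod_cast Nat.choose_succ_succ (2 * p + 3) p
  rw [h4] at h1
  rw [show 2 * (p + 1) + 1 = 2 * p + 3 by ring, show p + 1 + 1 = p + 2 by ring] at h1
  push_cast at h1
  have h5 : (0 : ℤ) ≤ (2 * p + 3).choose p := by positivity
  have h6 : ((p : ℤ) + 2) * (((p : ℤ) + 1) * bs (2 * (p + 1) + 3) (p + 2) + 4 * bs (2 * p + 3) p) ≤
      ((p : ℤ) + 2) * (4 * (p + 2) * bs (2 * p + 3) (p + 1)) := by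
    have h7 : ((p : ℤ) + 2) * (((p : ℤ) + 1) * bs (2 * (p + 1) + 3) (p + 2)) =
        4 * (p + 1) * (p + 2) * bs (2 * p + 3) (p + 1) +
          2 * (p + 2) * (2 * p + 3).choose p := by
      linear_combination ((p : ℤ) + 1) * h1 + h3
    have h8 : ((p : ℤ) + 2) * (4 * bs (2 * p + 3) p) =
        4 * (p + 2) * bs (2 * p + 3) (p + 1) - 4 * (p + 2) * (2 * p + 3).choose p := by
      linear_combination (-4 * ((p : ℤ) + 2)) * h2
    have h9 : 0 ≤ 2 * ((p : ℤ) + 2) * (2 * p + 3).choose p := by positivity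
    rw [mul_add, h7, h8]
    linarith
  have h10 := le_of_mul_le_mul_left h6 (by positivity)
  exact_mod_cast h10

/-- For every coordinate one of the two halves has at most `2 s(2q+1,q)` members (`far_even3_par`
for the two halves, `q = p + 1`; compare `coord_min` in `Parity.lean`). -/
lemma coord_min3 (p n : ℕ) (hn : n = 2 * (p + 1) + 3) (Y : Finset (Finset (Fin (n + 1)))) (π : ℕ)
    (hπ : ∀ y ∈ Y, #y % 2 = π % 2) (hdiam : ∀ x ∈ Y, ∀ y ∈ Y, hd x y ≤ 2 * (p + 1))
    (i : Fin (n + 1)) :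
    #(Y.filter (fun y => i ∉ y)) ≤ 2 * bs (2 * (p + 1) + 1) (p + 1) ∨
      #(Y.filter (fun y => i ∈ y)) ≤ 2 * bs (2 * (p + 1) + 1) (p + 1) := by
  obtain ⟨k1, k2⟩ := Cen3_pair p n hn Y π hπ hdiam i
  rw [show 2 * (p + 1) + 1 = 2 * p + 3 by ring]
  have hm : bs (2 * p + 3) p ≤ bs (2 * p + 3) (p + 1) := bs_mono _ (Nat.le_succ p)
  by_contra hcon
  push Not at hcon
  obtain ⟨c1, c2⟩ := hcon
  generalize #(Y.filter (fun y => i ∉ y)) = a at *
  generalize #(Y.filter (fun y => i ∈ y)) = b at *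
  generalize bs (2 * p + 3) (p + 1) = V at *
  generalize bs (2 * p + 3) p = w at *
  have key : ∀ x y : ℕ, 2 * V < x → 2 * V < y →
      (p + 3) * x + (p + 1) * y ≤ 4 * (p + 2) * V → False := by
    intro x y hx hy h
    have e1 : (p + 3) * (2 * V + 1) ≤ (p + 3) * x := Nat.mul_le_mul_left _ hx
    have e2 : (p + 1) * (2 * V + 1) ≤ (p + 1) * y := Nat.mul_le_mul_left _ hy
    have e3 : (p + 3) * (2 * V + 1) + (p + 1) * (2 * V + 1) = 4 * (p + 2) * V + (2 * p + 4) := by
      ring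
    omega
  rcases le_total a b with h | h
  · exact key a b c1 c2 (k1 (by omega) h (by omega))
  · exact key b a c2 c1 (k2 (by omega) h (by omega))

/-- Existence of the majority centre (compare `exists_centre` in `Parity.lean`). -/
lemma exists_centre3 (p n : ℕ) (hn : n = 2 * (p + 1) + 3) (Y : Finset (Finset (Fin (n + 1))))
    (π : ℕ) (hπ : ∀ y ∈ Y, #y % 2 = π % 2) (hdiam : ∀ x ∈ Y, ∀ y ∈ Y, hd x y ≤ 2 * (p + 1)) :
    ∃ c : Finset (Fin (n + 1)),
      ∀ i, #(Y.filter (fun y => i ∈ y ∆ c)) ≤ 2 * bs (2 * (p + 1) + 1) (p + 1) := by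
  set V := bs (2 * (p + 1) + 1) (p + 1) with hV
  refine ⟨univ.filter (fun i => ¬ #(Y.filter (fun y => i ∈ y)) ≤ 2 * V), ?_⟩
  intro i
  by_cases h : #(Y.filter (fun y => i ∈ y)) ≤ 2 * V
  · have : Y.filter (fun y => i ∈ y ∆ (univ.filter
        (fun i => ¬ #(Y.filter (fun y => i ∈ y)) ≤ 2 * V))) = Y.filter (fun y => i ∈ y) := by
      apply filter_congr
      intro y _
      rw [mem_symmDiff, mem_filter]
      constructor
      · rintro (h1 | h1)
        · exact h1.1
        · exact absurd h h1.1.2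
      · intro h1
        exact Or.inl ⟨h1, fun h2 => h2.2 h⟩
    rw [this]; exact h
  · have : Y.filter (fun y => i ∈ y ∆ (univ.filter
        (fun i => ¬ #(Y.filter (fun y => i ∈ y)) ≤ 2 * V))) = Y.filter (fun y => i ∉ y) := by
      apply filter_congr
      intro y _
      rw [mem_symmDiff, mem_filter]
      constructor
      · rintro (h1 | h1)
        · exact absurd ⟨mem_univ i, h⟩ h1.2
        · exact h1.2
      · intro h1
        exact Or.inr ⟨⟨mem_univ i, h⟩, h1⟩
    rw [this]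
    rcases coord_min3 p n hn Y π hπ hdiam i with h1 | h1
    · exact h1
    · exact absurd h1 h

/-- The smaller half. Put `q = p + 1`, `V = s(2q+1,q)`, `s = #(Y.filter (i ∈ y ∆ c))`, `l = #Y - s`
the other half; `s ≤ 2V < l` by `hbig`. If `2 s(2q+1,q-1) ≤ s` (and `0 < s`) this is `far_even3_par`:
`(q+2) s + q l ≤ 4 (q+1) V`. If `s < 2 s(2q+1,q-1)` or `s = 0` use Kleitman's theorem
(`CovAs.kleitman` for the image of `Y` under `erase (Fin.last n)`, or under `drop`, diameter at most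
`2q` in dimension `2q+3`): `#Y ≤ s(2q+3,q+1)`, and `cat_identity3`, `bs_succ`, which give
`q #Y + 2 s ≤ q s(2q+3,q+1) + 4 s(2q+1,q-1) ≤ 4 (q+1) V`. -/
lemma half3 (p n : ℕ) (hn : n = 2 * (p + 1) + 3) (Y : Finset (Finset (Fin (n + 1)))) (π : ℕ)
    (hπ : ∀ y ∈ Y, #y % 2 = π % 2) (hdiam : ∀ x ∈ Y, ∀ y ∈ Y, hd x y ≤ 2 * (p + 1))
    (hbig : 4 * bs (2 * (p + 1) + 1) (p + 1) < #Y) (c : Finset (Fin (n + 1))) (i : Fin (n + 1))
    (hc : #(Y.filter (fun y => i ∈ y ∆ c)) ≤ 2 * bs (2 * (p + 1) + 1) (p + 1)) :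
    (p + 1) * #Y + 2 * #(Y.filter (fun y => i ∈ y ∆ c)) ≤
      4 * (p + 2) * bs (2 * (p + 1) + 1) (p + 1) := by
  obtain ⟨k1, k2⟩ := Cen3_pair p n hn Y π hπ hdiam i
  have kl := Cen3_kl p n hn Y π hπ hdiam
  have num := Cen3_num p
  rw [show 2 * (p + 1) + 1 = 2 * p + 3 by ring] at hbig hc ⊢
  have e2 := card_filter_add_card_filter_not (s := Y) (fun y => i ∈ y)
  have kl' : (p + 1) * #Y ≤ (p + 1) * bs (2 * (p + 1) + 3) (p + 2) := Nat.mul_le_mul_left _ kl
  have key : ∀ s l : ℕ, s + l = #Y → s ≤ 2 * bs (2 * p + 3) (p + 1) →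
      (2 * bs (2 * p + 3) p ≤ s → s ≤ l → 0 < s →
        (p + 3) * s + (p + 1) * l ≤ 4 * (p + 2) * bs (2 * p + 3) (p + 1)) →
      (p + 1) * #Y + 2 * s ≤ 4 * (p + 2) * bs (2 * p + 3) (p + 1) := by
    intro s l hsl hs hk
    by_cases h : 2 * bs (2 * p + 3) p ≤ s ∧ 0 < s
    · have h1 := hk h.1 (by omega) h.2
      rw [← hsl]
      have h2 : (p + 1) * (s + l) + 2 * s = (p + 3) * s + (p + 1) * l := by ring
      rw [h2]; exact h1
    · have h1 : s ≤ 2 * bs (2 * p + 3) p := by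
        rw [not_and_or] at h
        rcases h with h | h <;> omega
      omega
  by_cases hi : i ∈ c
  · have : Y.filter (fun y => i ∈ y ∆ c) = Y.filter (fun y => i ∉ y) := by
      apply filter_congr
      intro y _
      rw [mem_symmDiff]
      tauto
    rw [this] at hc ⊢
    exact key _ _ (by omega) hc k1
  · have : Y.filter (fun y => i ∈ y ∆ c) = Y.filter (fun y => i ∈ y) := by
      apply filter_congr
      intro y _
      rw [mem_symmDiff]
      tauto
    rw [this] at hc ⊢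
    exact key _ _ (by omega) hc k2

/-- The choice of the parity functionals, dimension `2q+4`, diameter `2q+1`, `q = p + 1`,
`V = s(2q+1,q)` (compare `odd_choice` in `Parity.lean`). If one parity class of `F` has at most `4V`
members take it for both. Otherwise the centres of the two classes have different parity
(`exists_centre3`, `centre_parity3`), so they differ at some `i`; `T = univ.erase i`, and `half3` for
both classes. The total is at most `12 V` for `q ≥ 2`; for `q = 1` (`V = 1`) the classes have at most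
`6` members (Kleitman) and the total is at most `14`. -/
theorem choice3 (p n : ℕ) (hn : n = 2 * (p + 1) + 3) (F : Finset (Finset (Fin (n + 1))))
    (hF : ∀ x ∈ F, ∀ y ∈ F, hd x y ≤ 2 * (p + 1) + 1) :
    ∃ T : Finset (Fin (n + 1)), n ≤ #T ∧ ∃ ε < 2, ∃ π < 2,
      #(F.filter (fun x => #(x ∩ T) % 2 = ε)) + 2 * #(F.filter (fun x => #x % 2 = π)) ≤
        12 * bs (2 * (p + 1) + 1) (p + 1) + 3 := by
  by_cases h0 : #(F.filter (fun x => #x % 2 = 0 % 2)) ≤ 4 * bs (2 * (p + 1) + 1) (p + 1)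
  · refine ⟨univ, by rw [card_univ, Fintype.card_fin]; omega, 0, by omega, 0, by omega, ?_⟩
    simp only [inter_univ]
    rw [Nat.zero_mod] at h0
    omega
  by_cases h1 : #(F.filter (fun x => #x % 2 = 1 % 2)) ≤ 4 * bs (2 * (p + 1) + 1) (p + 1)
  · refine ⟨univ, by rw [card_univ, Fintype.card_fin]; omega, 1, by omega, 1, by omega, ?_⟩
    simp only [inter_univ]
    rw [show 1 % 2 = 1 from rfl] at h1
    omega
  push Not at h0 h1
  have hd0 : ∀ π : ℕ, ∀ x ∈ F.filter (fun x => #x % 2 = π % 2),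
      ∀ y ∈ F.filter (fun x => #x % 2 = π % 2), hd x y ≤ 2 * (p + 1) := by
    intro π x hx y hy
    rw [mem_filter] at hx hy
    have h3 := hF x hx.1 y hy.1
    have h4 := hd_parity x y
    omega
  have hp0 : ∀ π : ℕ, ∀ x ∈ F.filter (fun x => #x % 2 = π % 2), #x % 2 = π % 2 :=
    fun π x hx => (mem_filter.mp hx).2
  obtain ⟨c0, hc0⟩ := exists_centre3 p n hn _ 0 (hp0 0) (hd0 0)
  obtain ⟨c1, hc1⟩ := exists_centre3 p n hn _ 1 (hp0 1) (hd0 1)
  have e0 := centre_parity3 p n hn _ 0 (hp0 0) (hd0 0) h0 c0 hc0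
  have e1 := centre_parity3 p n hn _ 1 (hp0 1) (hd0 1) h1 c1 hc1
  have hne : c0 ≠ c1 := by
    intro h
    rw [h] at e0
    omega
  obtain ⟨i, hi⟩ : ∃ i, i ∈ c0 ∆ c1 := by
    by_contra hcon
    push Not at hcon
    apply hne
    ext i
    have := hcon i
    rw [mem_symmDiff] at this
    tauto
  have f0 := half3 p n hn _ 0 (hp0 0) (hd0 0) h0 c0 i (hc0 i)
  have f1 := half3 p n hn _ 1 (hp0 1) (hd0 1) h1 c1 i (hc1 i)
  have g0 := Cen3_kl p n hn _ 0 (hp0 0) (hd0 0)
  have g1 := Cen3_kl p n hn _ 1 (hp0 1) (hd0 1)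
  have hcard : n ≤ #((univ : Finset (Fin (n + 1))).erase i) := by
    rw [card_erase_of_mem (mem_univ i), card_univ, Fintype.card_fin]; rfl
  have hinter : ∀ x : Finset (Fin (n + 1)), x ∩ univ.erase i = x.erase i := by
    intro x
    ext a
    rw [mem_inter, mem_erase, mem_erase]
    constructor
    · rintro ⟨h, h', _⟩; exact ⟨h', h⟩
    · rintro ⟨h, h'⟩; exact ⟨h', h, mem_univ a⟩
  rw [mem_symmDiff] at hi
  -- the two small halves
  have key : ∀ ε : ℕ,
      (∀ x, #(x.erase i) % 2 = ε → #x % 2 = 0 → i ∈ x ∆ c0) →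
      (∀ x, #(x.erase i) % 2 = ε → #x % 2 = 1 → i ∈ x ∆ c1) →
      #(F.filter (fun x => #(x ∩ univ.erase i) % 2 = ε)) ≤
        #((F.filter (fun x => #x % 2 = 0 % 2)).filter (fun y => i ∈ y ∆ c0)) +
          #((F.filter (fun x => #x % 2 = 1 % 2)).filter (fun y => i ∈ y ∆ c1)) := by
    intro ε k0 k1
    have hsub : F.filter (fun x => #(x ∩ univ.erase i) % 2 = ε)
        ⊆ (F.filter (fun x => #x % 2 = 0 % 2)).filter (fun y => i ∈ y ∆ c0)
          ∪ (F.filter (fun x => #x % 2 = 1 % 2)).filter (fun y => i ∈ y ∆ c1) := by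
      intro x hx
      rw [mem_filter, hinter] at hx
      rw [mem_union, mem_filter, mem_filter, mem_filter, mem_filter]
      rcases Nat.mod_two_eq_zero_or_one (#x) with h | h
      · exact Or.inl ⟨⟨hx.1, h⟩, k0 x hx.2 h⟩
      · exact Or.inr ⟨⟨hx.1, h⟩, k1 x hx.2 h⟩
    exact (card_le_card hsub).trans (card_union_le _ _)
  have hmem : ∀ x : Finset (Fin (n + 1)), i ∈ x → #(x.erase i) + 1 = #x :=
    fun x hx => card_erase_add_one hx
  have hnmem : ∀ x : Finset (Fin (n + 1)), i ∉ x → #(x.erase i) = #x :=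
    fun x hx => by rw [erase_eq_of_notMem hx]
  obtain ⟨ε, hε, hk⟩ : ∃ ε < 2, #(F.filter (fun x => #(x ∩ univ.erase i) % 2 = ε)) ≤
        #((F.filter (fun x => #x % 2 = 0 % 2)).filter (fun y => i ∈ y ∆ c0)) +
          #((F.filter (fun x => #x % 2 = 1 % 2)).filter (fun y => i ∈ y ∆ c1)) := by
    rcases hi with hi | hi
    · refine ⟨0, by omega, key 0 ?_ ?_⟩
      · intro x h2 h3
        rw [mem_symmDiff]
        by_cases h4 : i ∈ x
        · have := hmem x h4; omega
        · exact Or.inr ⟨hi.1, h4⟩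
      · intro x h2 h3
        rw [mem_symmDiff]
        by_cases h4 : i ∈ x
        · exact Or.inl ⟨h4, hi.2⟩
        · have := hnmem x h4; omega
    · refine ⟨1, by omega, key 1 ?_ ?_⟩
      · intro x h2 h3
        rw [mem_symmDiff]
        by_cases h4 : i ∈ x
        · exact Or.inl ⟨h4, hi.2⟩
        · have := hnmem x h4; omega
      · intro x h2 h3
        rw [mem_symmDiff]
        by_cases h4 : i ∈ x
        · have := hmem x h4; omega
        · exact Or.inr ⟨hi.1, h4⟩
  -- the count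
  have count : ∀ m s0 s1 y0 y1 V : ℕ, m ≤ y0 → m ≤ y1 → 4 * V < m →
      (p + 1) * y0 + 2 * s0 ≤ 4 * (p + 2) * V → (p + 1) * y1 + 2 * s1 ≤ 4 * (p + 2) * V →
      (p = 0 → m ≤ 6 ∧ V = 1) → s0 + s1 + 2 * m ≤ 12 * V + 3 := by
    intro m s0 s1 y0 y1 V hm0 hm1 hm a0 a1 hp
    have b0 : (p + 1) * m ≤ (p + 1) * y0 := Nat.mul_le_mul_left _ hm0
    have b1 : (p + 1) * m ≤ (p + 1) * y1 := Nat.mul_le_mul_left _ hm1
    rcases Nat.eq_zero_or_pos p with h | h
    · subst h
      obtain ⟨hm6, hV⟩ := hp rfl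
      subst hV
      omega
    · obtain ⟨r, rfl⟩ : ∃ r, p = r + 1 := ⟨p - 1, by omega⟩
      have c1 : r * (4 * V) ≤ r * m := Nat.mul_le_mul_left _ hm.le
      have c2 : (r + 1 + 1) * m = r * m + 2 * m := by ring
      have c3 : 4 * (r + 1 + 2) * V = r * (4 * V) + 12 * V := by ring
      omega
  have hbs : p = 0 → bs (2 * (p + 1) + 3) (p + 2) = 6 ∧ bs (2 * (p + 1) + 1) (p + 1) = 1 := by
    intro h
    subst h
    constructor
    · decide
    · decide
  rcases le_total (#(F.filter (fun x => #x % 2 = 0 % 2))) (#(F.filter (fun x => #x % 2 = 1 % 2)))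
    with hle | hle
  · refine ⟨univ.erase i, hcard, ε, hε, 0, by omega, ?_⟩
    have := count _ _ _ _ _ _ le_rfl hle h0 f0 f1
      (fun h => ⟨by rw [← (hbs h).1]; exact g0, (hbs h).2⟩)
    rw [show (0 : ℕ) % 2 = 0 from rfl] at this hk
    omega
  · refine ⟨univ.erase i, hcard, ε, hε, 1, by omega, ?_⟩
    have := count _ _ _ _ _ _ hle le_rfl h1 f0 f1
      (fun h => ⟨by rw [← (hbs h).1]; exact g1, (hbs h).2⟩)
    rw [show (1 : ℕ) % 2 = 1 from rfl] at this hk
    omega

end CodimThree
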