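import Pool.Agent.H.MP_602efc_co.Upper

/-!
# The weight argument for `k = d - 3`, `d` even
-/

namespace CodimThree

open Finset CodimTwo

variable {d : ℕ}

lemma full_of_card (w : Finset (Fin d) × Finset (Fin d)) (h : Disjoint w.1 w.2)
    (hc : #w.1 + #w.2 = d) : w.1 = w.2ᶜ := by
  apply eq_of_subset_of_card_le
  · intro a ha
    rw [mem_compl]
    exact (disjoint_left.mp h) ha
  · rw [card_compl, Fintype.card_fin]; omega

/-- First half: `2 #W0 + 2 #W1 + 4 #W2 + 4 #W3 ≤ 2 ^ d + β`. -/
lemma bound_i (hd4 : 4 ≤ d) (W : Finset (Finset (Fin d) × Finset (Fin d)))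
    (hdisj : ∀ w ∈ W, Disjoint w.1 w.2)
    (h1 : ∀ u ∈ W, ∀ v ∈ W, u ≠ v → 1 ≤ wdist u v)
    (h2 : ∀ u ∈ W, ∀ v ∈ W, u ≠ v → wdist u v ≤ d - 3)
    (T : Finset (Fin d)) (hT : d - 1 ≤ #T) (ε β : ℕ) (hε : ε < 2)
    (hβ : #(((W.filter (fun w => #w.1 + #w.2 = d)).image Prod.snd).filter
      (fun x => #(x ∩ T) % 2 = ε)) ≤ β) :
    4 * #W ≤ 2 ^ d + β + 2 * (#(W.filter (fun w => #w.1 + #w.2 = d))
      + #(W.filter (fun w => #w.1 + #w.2 + 1 = d))) := by
  set W0 := W.filter (fun w => #w.1 + #w.2 = d) with hW0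
  set W1 := W.filter (fun w => #w.1 + #w.2 + 1 = d) with hW1
  set W2 := W.filter (fun w => #w.1 + #w.2 + 2 = d) with hW2
  set W3 := W.filter (fun w => #w.1 + #w.2 + 3 ≤ d) with hW3
  set B := W0.image Prod.snd with hB
  set S := W3.biUnion cube with hS
  set U := W.biUnion cube with hU
  have full : ∀ w ∈ W0, w.1 = w.2ᶜ := by
    intro w hw
    rw [hW0, mem_filter] at hw
    exact full_of_card w (hdisj w hw.1) hw.2
  have cardB : #B = #W0 := by
    rw [hB]
    apply card_image_of_injOn
    intro u hu v hv huv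
    have e1 := full u hu
    have e2 := full v hv
    apply Prod.ext
    · rw [e1, e2, huv]
    · exact huv
  have hpd : ∀ V ⊆ W, (V : Set (Finset (Fin d) × Finset (Fin d))).PairwiseDisjoint cube := by
    intro V hV u hu v hv huv
    exact cube_disjoint (h1 u (hV hu) v (hV hv) huv)
  have cardU : #U = ∑ w ∈ W, #(cube w) := by
    rw [hU]; exact card_biUnion (hpd W subset_rfl)
  have cardS : #S = ∑ w ∈ W3, #(cube w) := by
    rw [hS]; exact card_biUnion (hpd W3 (filter_subset _ _))
  -- the antipodes of full words only meet large cubes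
  have hBU : B ∩ U ⊆ B ∩ S := by
    intro x hx
    rw [mem_inter] at hx
    rw [mem_inter]
    refine ⟨hx.1, ?_⟩
    obtain ⟨w', hw', rfl⟩ := mem_image.mp hx.1
    obtain ⟨w, hw, hxw⟩ := mem_biUnion.mp hx.2
    rw [hS, mem_biUnion]
    refine ⟨w, ?_, hxw⟩
    have hw'W := (mem_filter.mp hw').1
    have hc' := (mem_filter.mp hw').2
    have hf := full w' hw'
    rw [mem_cube] at hxw
    have hdist : wdist w w' = #w.1 + #w.2 := by
      unfold wdist
      rw [inter_eq_left.mpr hxw.1, inter_eq_left.mpr (by rw [hf]; exact hxw.2)]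
    rw [hW3, mem_filter]
    refine ⟨hw, ?_⟩
    by_cases hne : w = w'
    · exfalso
      rw [hne] at hxw
      have h3 := hdisj w' hw'W
      have e1 : w'.1 = ∅ := by
        rw [eq_empty_iff_forall_notMem]
        intro a ha
        exact (disjoint_left.mp h3) ha (hxw.1 ha)
      have e2 : w'.2 = ∅ := by
        rw [eq_empty_iff_forall_notMem]
        intro a ha
        exact (mem_compl.mp (hxw.2 ha)) ha
      rw [e1, e2] at hc'
      simp at hc'
      omega
    · have := h2 w hw w' hw'W hne
      omega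
  -- balance
  have hbal : ∀ w ∈ W3, 2 * #((cube w).filter (fun x => #(x ∩ T) % 2 = ε)) = #(cube w) := by
    intro w hw
    rw [hW3, mem_filter] at hw
    have hex : ∃ i, i ∈ T ∧ i ∉ w.1 ∪ w.2 := by
      by_contra hcon
      push Not at hcon
      have h3 : T ⊆ w.1 ∪ w.2 := fun i hi => hcon i hi
      have h4 := card_le_card h3
      have h5 := card_union_le w.1 w.2
      omega
    obtain ⟨i, hi, hi'⟩ := hex
    rw [mem_union, not_or] at hi'
    exact cube_balanced w T i hi hi'.1 hi'.2 ε hε
  have hSbal : 2 * #(S.filter (fun x => #(x ∩ T) % 2 = ε)) = #S := by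
    rw [cardS, hS, filter_biUnion, card_biUnion, mul_sum]
    · exact sum_congr rfl hbal
    · intro u hu v hv huv
      exact (cube_disjoint (h1 u (mem_filter.mp hu).1 v (mem_filter.mp hv).1 huv)).mono
        (filter_subset _ _) (filter_subset _ _)
  have hSneg := card_filter_add_card_filter_not (s := S) (fun x => #(x ∩ T) % 2 = ε)
  -- bound on `#(B ∩ S)`
  have hBS : #(B ∩ S) ≤ β + #(S.filter (fun x => ¬ #(x ∩ T) % 2 = ε)) := by
    have e1 := card_filter_add_card_filter_not (s := B ∩ S) (fun x => #(x ∩ T) % 2 = ε)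
    have e2 : #((B ∩ S).filter (fun x => #(x ∩ T) % 2 = ε)) ≤ β :=
      (card_le_card (filter_subset_filter _ inter_subset_left)).trans hβ
    have e3 : #((B ∩ S).filter (fun x => ¬ #(x ∩ T) % 2 = ε))
        ≤ #(S.filter (fun x => ¬ #(x ∩ T) % 2 = ε)) :=
      card_le_card (filter_subset_filter _ inter_subset_right)
    omega
  -- volume
  have hvol : #U + #B ≤ 2 ^ d + #(B ∩ S) := by
    have e1 := card_union_add_card_inter B U
    have e2 : #(B ∪ U) ≤ 2 ^ d := by
      refine (card_le_univ _).trans ?_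
      rw [Fintype.card_finset, Fintype.card_fin]
    have e3 := card_le_card hBU
    omega
  have hUsum : #W0 + 2 * #W1 + 4 * #W2 + #S ≤ #U := by
    have e0 : #W0 = ∑ w ∈ W0, #(cube w) := by
      rw [card_eq_sum_ones]
      apply sum_congr rfl
      intro w hw
      have hw' := mem_filter.mp hw
      rw [card_cube w (hdisj w hw'.1), hw'.2, Nat.sub_self, pow_zero]
    have e1 : 2 * #W1 = ∑ w ∈ W1, #(cube w) := by
      rw [card_eq_sum_ones, mul_sum]
      apply sum_congr rfl
      intro w hw
      have hw' := mem_filter.mp hw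
      rw [card_cube w (hdisj w hw'.1), show d - (#w.1 + #w.2) = 1 by omega]
      norm_num
    have e2 : 4 * #W2 = ∑ w ∈ W2, #(cube w) := by
      rw [card_eq_sum_ones, mul_sum]
      apply sum_congr rfl
      intro w hw
      have hw' := mem_filter.mp hw
      rw [card_cube w (hdisj w hw'.1), show d - (#w.1 + #w.2) = 2 by omega]
      norm_num
    rw [cardU, cardS, e0, e1, e2]
    rw [← sum_union, ← sum_union, ← sum_union]
    · apply sum_le_sum_of_subset
      intro w hw
      rw [mem_union, mem_union, mem_union] at hw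
      rcases hw with ((hw | hw) | hw) | hw
      · exact (mem_filter.mp hw).1
      · exact (mem_filter.mp hw).1
      · exact (mem_filter.mp hw).1
      · exact (mem_filter.mp hw).1
    · rw [disjoint_left]
      intro w hw hw'
      rw [mem_union, mem_union] at hw
      have h5 := (mem_filter.mp hw').2
      rcases hw with (hw | hw) | hw
      · have := (mem_filter.mp hw).2; omega
      · have := (mem_filter.mp hw).2; omega
      · have := (mem_filter.mp hw).2; omega
    · rw [disjoint_left]
      intro w hw hw'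
      rw [mem_union] at hw
      have h5 := (mem_filter.mp hw').2
      rcases hw with hw | hw
      · have := (mem_filter.mp hw).2; omega
      · have := (mem_filter.mp hw).2; omega
    · rw [disjoint_left]
      intro w hw hw'
      have h4 := (mem_filter.mp hw).2
      have h5 := (mem_filter.mp hw').2
      omega
  have hSbig : 8 * #W3 ≤ #S := by
    rw [cardS, card_eq_sum_ones, mul_sum]
    apply sum_le_sum
    intro w hw
    have hw' := mem_filter.mp hw
    rw [card_cube w (hdisj w hw'.1)]
    calc 8 * 1 = 2 ^ 3 := by norm_num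
      _ ≤ 2 ^ (d - (#w.1 + #w.2)) := Nat.pow_le_pow_right (by norm_num) (by omega)
  have hsplit : #W ≤ #W0 + #W1 + #W2 + #W3 := by
    have : W ⊆ ((W0 ∪ W1) ∪ W2) ∪ W3 := by
      intro w hw
      have e2 := card_word_le w (hdisj w hw)
      rw [mem_union, mem_union, mem_union, hW0, hW1, hW2, hW3, mem_filter, mem_filter, mem_filter,
        mem_filter]
      by_cases c0 : #w.1 + #w.2 = d
      · exact Or.inl (Or.inl (Or.inl ⟨hw, c0⟩))
      · by_cases c1 : #w.1 + #w.2 + 1 = d
        · exact Or.inl (Or.inl (Or.inr ⟨hw, c1⟩))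
        · by_cases c2 : #w.1 + #w.2 + 2 = d
          · exact Or.inl (Or.inr ⟨hw, c2⟩)
          · exact Or.inr ⟨hw, by omega⟩
    refine (card_le_card this).trans ?_
    have e1 := card_union_le ((W0 ∪ W1) ∪ W2) W3
    have e2 := card_union_le (W0 ∪ W1) W2
    have e3 := card_union_le W0 W1
    omega
  omega

lemma parity_class (hd1 : 1 ≤ d) (ε : ℕ) (hε : ε < 2) :
    2 * #((univ : Finset (Finset (Fin d))).filter (fun x => #x % 2 = ε)) = 2 ^ d := by
  have h := cube_balanced (d := d) (∅, ∅) univ ⟨0, by omega⟩ (mem_univ _) (by simp) (by simp) ε hε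
  have e : cube ((∅, ∅) : Finset (Fin d) × Finset (Fin d)) = univ := by
    ext x
    rw [mem_cube]
    simp
  have hc := card_cube ((∅, ∅) : Finset (Fin d) × Finset (Fin d)) (by simp)
  rw [e] at h hc
  simp only [inter_univ] at h
  rw [h, hc]
  simp

/-- Second half: `#W0 + #W1 ≤ 2 ^ (d - 2) + μ`. -/
lemma bound_ii (hd4 : 4 ≤ d) (hev : d % 2 = 0) (W : Finset (Finset (Fin d) × Finset (Fin d)))
    (hdisj : ∀ w ∈ W, Disjoint w.1 w.2)
    (h1 : ∀ u ∈ W, ∀ v ∈ W, u ≠ v → 1 ≤ wdist u v)
    (h2 : ∀ u ∈ W, ∀ v ∈ W, u ≠ v → wdist u v ≤ d - 3)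
    (π μ : ℕ) (hπ : π < 2)
    (hμ : #(((W.filter (fun w => #w.1 + #w.2 = d)).image Prod.snd).filter
      (fun x => #x % 2 = π)) ≤ μ) :
    4 * (#(W.filter (fun w => #w.1 + #w.2 = d))
      + #(W.filter (fun w => #w.1 + #w.2 + 1 = d))) ≤ 2 ^ d + 4 * μ := by
  set W0 := W.filter (fun w => #w.1 + #w.2 = d) with hW0
  set W1 := W.filter (fun w => #w.1 + #w.2 + 1 = d) with hW1
  set S := (W0 ∪ W1).biUnion cube with hS
  set P := S.filter (fun x => #x % 2 = 1 - π) with hP
  have memW : ∀ w ∈ W0 ∪ W1, w ∈ W ∧ d ≤ #w.1 + #w.2 + 1 := by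
    intro w hw
    rcases mem_union.mp hw with hw | hw
    · exact ⟨(mem_filter.mp hw).1, by have := (mem_filter.mp hw).2; omega⟩
    · exact ⟨(mem_filter.mp hw).1, by have := (mem_filter.mp hw).2; omega⟩
  -- no antipodal pairs
  have hanti : ∀ x ∈ S, xᶜ ∉ S := by
    intro x hx hx'
    obtain ⟨u, hu, hxu⟩ := mem_biUnion.mp hx
    obtain ⟨v, hv, hxv⟩ := mem_biUnion.mp hx'
    have hu' := memW u hu
    have hv' := memW v hv
    rw [mem_cube] at hxu hxv
    rw [compl_compl] at hxv
    by_cases huv : u = v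
    · subst huv
      have e1 : u.1 = ∅ := by
        rw [eq_empty_iff_forall_notMem]
        intro a ha
        exact (mem_compl.mp (hxv.1 ha)) (hxu.1 ha)
      have e2 : u.2 = ∅ := by
        rw [eq_empty_iff_forall_notMem]
        intro a ha
        exact (mem_compl.mp (hxu.2 ha)) (hxv.2 ha)
      have := hu'.2
      rw [e1, e2, card_empty] at this
      omega
    · have h3 := h2 u hu'.1 v hv'.1 huv
      unfold wdist at h3
      have e1 := card_union_add_card_inter u.1 v.2
      have e2 := card_union_add_card_inter u.2 v.1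
      have e3 : #(u.1 ∪ v.2) ≤ #x := card_le_card (union_subset hxu.1 hxv.2)
      have e4 : #(u.2 ∪ v.1) ≤ #xᶜ := card_le_card (union_subset hxu.2 hxv.1)
      have e5 : #x + #xᶜ = d := by rw [card_add_card_compl, Fintype.card_fin]
      have := hu'.2
      have := hv'.2
      omega
  have hclass := parity_class (d := d) (by omega) (1 - π) (by omega)
  have hPle : 2 * #P ≤ #((univ : Finset (Finset (Fin d))).filter (fun x => #x % 2 = 1 - π)) := by
    have e1 : #(P.image compl) = #P := card_image_of_injective _ compl_injective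
    have e2 : Disjoint P (P.image compl) := by
      rw [disjoint_left]
      intro x hx hx'
      obtain ⟨y, hy, rfl⟩ := mem_image.mp hx'
      exact hanti y (mem_filter.mp hy).1 (mem_filter.mp hx).1
    have e3 : P ∪ P.image compl ⊆
        (univ : Finset (Finset (Fin d))).filter (fun x => #x % 2 = 1 - π) := by
      intro x hx
      rw [mem_filter]
      refine ⟨mem_univ _, ?_⟩
      rcases mem_union.mp hx with hx | hx
      · exact (mem_filter.mp hx).2
      · obtain ⟨y, hy, rfl⟩ := mem_image.mp hx
        have h3 := (mem_filter.mp hy).2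
        have e5 : #y + #yᶜ = d := by rw [card_add_card_compl, Fintype.card_fin]
        omega
    have e4 := card_le_card e3
    rw [card_union_of_disjoint e2, e1] at e4
    omega
  -- size of P
  have hPcard : #P = ∑ w ∈ W0 ∪ W1, #((cube w).filter (fun x => #x % 2 = 1 - π)) := by
    rw [hP, hS, filter_biUnion, card_biUnion]
    intro u hu v hv huv
    exact (cube_disjoint (h1 u (memW u hu).1 v (memW v hv).1 huv)).mono
      (filter_subset _ _) (filter_subset _ _)
  have hdis01 : Disjoint W0 W1 := by
    rw [disjoint_left]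
    intro w hw hw'
    have h4 := (mem_filter.mp hw).2
    have h5 := (mem_filter.mp hw').2
    omega
  have hs1 : ∑ w ∈ W1, #((cube w).filter (fun x => #x % 2 = 1 - π)) = #W1 := by
    rw [card_eq_sum_ones]
    apply sum_congr rfl
    intro w hw
    have hw' := mem_filter.mp hw
    have hd' := hdisj w hw'.1
    have hex : ∃ i, i ∉ w.1 ∪ w.2 := by
      by_contra hcon
      push Not at hcon
      have h3 : (univ : Finset (Fin d)) ⊆ w.1 ∪ w.2 := fun i _ => hcon i
      have h4 := card_le_card h3
      have h5 := card_union_le w.1 w.2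
      rw [card_univ, Fintype.card_fin] at h4
      omega
    obtain ⟨i, hi⟩ := hex
    rw [mem_union, not_or] at hi
    have hb := cube_balanced w univ i (mem_univ _) hi.1 hi.2 (1 - π) (by omega)
    rw [card_cube w hd', show d - (#w.1 + #w.2) = 1 by omega] at hb
    simp only [inter_univ] at hb
    omega
  have hs0 : #(W0.filter (fun w => #w.1 % 2 = 1 - π)) ≤
      ∑ w ∈ W0, #((cube w).filter (fun x => #x % 2 = 1 - π)) := by
    rw [card_filter]
    apply sum_le_sum
    intro w hw
    have hw' := mem_filter.mp hw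
    split_ifs with hc
    · rw [Nat.one_le_iff_ne_zero, ← Nat.pos_iff_ne_zero, card_pos]
      refine ⟨w.1, ?_⟩
      rw [mem_filter, mem_cube]
      refine ⟨⟨subset_rfl, ?_⟩, hc⟩
      intro a ha
      rw [mem_compl]
      exact fun h => (disjoint_left.mp (hdisj w hw'.1)) h ha
    · exact Nat.zero_le _
  have hμ' : #(W0.filter (fun w => ¬ #w.1 % 2 = 1 - π)) ≤ μ := by
    refine le_trans ?_ hμ
    apply card_le_card_of_injOn Prod.snd
    · intro w hw
      rw [mem_coe, mem_filter] at hw
      rw [mem_coe, mem_filter]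
      refine ⟨mem_image_of_mem _ hw.1, ?_⟩
      have hw' := (mem_filter.mp hw.1).2
      have := hw.2
      omega
    · intro u hu v hv huv
      rw [mem_coe, mem_filter] at hu hv
      have hu' := mem_filter.mp hu.1
      have hv' := mem_filter.mp hv.1
      have e1 := full_of_card u (hdisj u hu'.1) hu'.2
      have e2 := full_of_card v (hdisj v hv'.1) hv'.2
      apply Prod.ext
      · rw [e1, e2, huv]
      · exact huv
  have hW0split := card_filter_add_card_filter_not (s := W0) (fun w => #w.1 % 2 = 1 - π)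
  rw [sum_union hdis01, hs1] at hPcard
  omega

/-- The weight argument (compare `words_bound` in `Upper.lean`). Let `W0, W1, W2, W3` be the words
with `0`, `1`, `2`, at least `3` stars, `U` the union of all cubes, `S3` the union of the cubes of `W3`,
`B = W0.image Prod.snd` the antipodes of the full words. (i) `B ∩ U ⊆ S3`, `S3` is balanced for `T`
(`cube_balanced`, each word of `W3` has a star in `T`), so
`2 #W0 + 2 #W1 + 4 #W2 + 4 #W3 ≤ 2 ^ d + β`. (ii) Let `S1` be the set of the points covered by words of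
`W0` and `W1`. No two points of `S1` are antipodal (words with `a` and `b` stars that cover antipodal
points have at least `d - a - b ≥ d - 2` conflicts), and as `d` is even the antipode has the same
parity, so at most `2 ^ (d - 2)` points of `S1` have the parity `1 - π`; these are the full words of
this parity and one point of each cube of `W1` (`cube_balanced` with `T = univ`). So
`#W0 + #W1 ≤ 2 ^ (d - 2) + μ`. Add (i) and twice (ii). Here the parity classes of the full words and of
their antipodes correspond because `#xᶜ` and `#x` have the same parity. -/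
theorem words_bound3 (hd4 : 4 ≤ d) (hev : d % 2 = 0) (W : Finset (Finset (Fin d) × Finset (Fin d)))
    (hdisj : ∀ w ∈ W, Disjoint w.1 w.2)
    (h1 : ∀ u ∈ W, ∀ v ∈ W, u ≠ v → 1 ≤ wdist u v)
    (h2 : ∀ u ∈ W, ∀ v ∈ W, u ≠ v → wdist u v ≤ d - 3)
    (T : Finset (Fin d)) (hT : d - 1 ≤ #T) (ε β : ℕ) (hε : ε < 2)
    (hβ : #(((W.filter (fun w => #w.1 + #w.2 = d)).image Prod.snd).filter
      (fun x => #(x ∩ T) % 2 = ε)) ≤ β) (π μ : ℕ) (hπ : π < 2)
    (hμ : #(((W.filter (fun w => #w.1 + #w.2 = d)).image Prod.snd).filter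
      (fun x => #x % 2 = π)) ≤ μ) : 4 * #W ≤ 3 * 2 ^ (d - 1) + β + 2 * μ := by
  have hi := bound_i hd4 W hdisj h1 h2 T hT ε β hε hβ
  have hii := bound_ii hd4 hev W hdisj h1 h2 π μ hπ hμ
  have hp : 2 ^ d = 2 * 2 ^ (d - 1) := by
    rw [← pow_succ']
    congr 1
    omega
  omega

end CodimThree
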